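import Mathlib
import Pool.Agent.Lib.MP_29a676_an.Kernel

/-!
# Circle means of exponential sums
-/

set_option autoImplicit false

namespace SpecVar.D

open Set MeasureTheory intervalIntegral Complex
open scoped Real

variable {E : Type*} [NormedAddCommGroup E] [InnerProductSpace ℂ E] [FiniteDimensional ℂ E]
variable {ι : Type*} [Fintype ι]

/-- The exponential sum at the point `y * exp (i θ)`. -/
noncomputable def U (s : ι → ℂ) (c : ι → E) (y θ : ℝ) : E :=
  ∑ p, cexp ((y * inner ℝ (cexp (θ * I)) (s p) : ℝ) * I) • c p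

/-- The derivative in direction `d`, at the point `y * exp (i θ)`. -/
noncomputable def Ud (s : ι → ℂ) (c : ι → E) (d : ℂ) (y θ : ℝ) : E :=
  ∑ p, ((inner ℝ d (s p) : ℝ) * I * cexp ((y * inner ℝ (cexp (θ * I)) (s p) : ℝ) * I)) • c p

/-- The radial derivative. -/
noncomputable def Ur (s : ι → ℂ) (c : ι → E) (y θ : ℝ) : E := Ud s c (cexp (θ * I)) y θ

/-- The tangential derivative. -/
noncomputable def Ut (s : ι → ℂ) (c : ι → E) (y θ : ℝ) : E := Ud s c (I * cexp (θ * I)) y θ

/-- The circle mean. -/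
noncomputable def MM (s : ι → ℂ) (c : ι → E) (y : ℝ) : E :=
  (2 * π)⁻¹ • ∫ θ in (-π)..π, U s c y θ

/-- Its derivative. -/
noncomputable def MM' (s : ι → ℂ) (c : ι → E) (y : ℝ) : E :=
  (2 * π)⁻¹ • ∫ θ in (-π)..π, Ur s c y θ

end SpecVar.D
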