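import Mathlib
import Pool.Agent.Lib.MP_29a676_an.Linear
import Pool.Agent.Lib.MP_29a676_an.D.ParamDef

/-!
# The map `u` (Step 2 of the page)
-/

set_option autoImplicit false

namespace SpecVar.D

open ContinuousLinearMap Complex

variable {E : Type*} [NormedAddCommGroup E] [InnerProductSpace ℂ E] [FiniteDimensional ℂ E]
variable {ι κ : Type*} [Fintype ι] [Fintype κ]

/-- The frequencies. -/
noncomputable def ss (α : ι → ℂ) (β : κ → ℂ) (δ : ℝ) (p : ι × κ) : ℂ := (β p.2 - α p.1) / δ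

/-- The coefficients. -/
noncomputable def cc (a : OrthonormalBasis ι ℂ E) (b : OrthonormalBasis κ ℂ E) (x : E)
    (p : ι × κ) : E := (inner ℂ (a p.1) (b p.2) * inner ℂ (b p.2) x) • a p.1

/-- `exp (i y ⟨e, B⟩ / δ) x`. -/
noncomputable def VV (b : OrthonormalBasis κ ℂ E) (β : κ → ℂ) (δ : ℝ) (x : E) (e : ℂ) (y : ℝ) : E :=
  ∑ k, (cexp ((y * inner ℝ e (β k / δ) : ℝ) * I) * inner ℂ (b k) x) • b k

/-- `(conj d X + d X^*) / 2`. -/
noncomputable def Xd (X : E →L[ℂ] E) (d : ℂ) : E →L[ℂ] E :=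
  (1 / 2 : ℂ) • ((starRingEnd ℂ d) • X + d • adjoint X)

end SpecVar.D
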