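import Mathlib
import Pool.Agent.Lib.MP_29a676_an.D.AlgDef

/-!
# The map `u` (Step 2 of the page): row Alg1
-/

set_option autoImplicit false

namespace SpecVar.D

open ContinuousLinearMap Complex

variable {E : Type*} [NormedAddCommGroup E] [InnerProductSpace ℂ E] [FiniteDimensional ℂ E]
variable {ι κ : Type*} [Fintype ι] [Fintype κ]

theorem norm_VV (b : OrthonormalBasis κ ℂ E) (β : κ → ℂ) (δ : ℝ) (x : E) (e : ℂ) (y : ℝ) :
    ‖VV b β δ x e y‖ = ‖x‖ := by
  have h1 : VV b β δ x e y = b.repr.symm (WithLp.toLp 2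
      (fun k => cexp ((y * inner ℝ e (β k / δ) : ℝ) * I) * inner ℂ (b k) x)) := by
    rw [VV, ← b.sum_repr_symm]
  rw [h1, LinearIsometryEquiv.norm_map, EuclideanSpace.norm_eq]
  have h2 : ∀ k, ‖(WithLp.toLp 2
      (fun k => cexp ((y * inner ℝ e (β k / δ) : ℝ) * I) * inner ℂ (b k) x) : EuclideanSpace ℂ κ) k‖ ^ 2
      = ‖inner ℂ (b k) x‖ ^ 2 := by
    intro k
    change ‖cexp ((y * inner ℝ e (β k / δ) : ℝ) * I) * inner ℂ (b k) x‖ ^ 2 = _
    rw [norm_mul, Complex.norm_exp_ofReal_mul_I, one_mul]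
  simp only [h2]
  rw [b.sum_sq_norm_inner_right]
  exact Real.sqrt_sq (norm_nonneg x)

omit [Fintype ι] [Fintype κ] in
private theorem Alg1_exp (α : ι → ℂ) (β : κ → ℂ) (δ : ℝ) (e : ℂ) (y : ℝ) (i : ι) (k : κ) :
    cexp ((y * inner ℝ e (ss α β δ (i, k)) : ℝ) * I) =
      cexp (-(y * inner ℝ e (α i / δ) : ℝ) * I) * cexp ((y * inner ℝ e (β k / δ) : ℝ) * I) := by
  rw [← Complex.exp_add]
  congr 1
  unfold ss
  simp only
  rw [sub_div, inner_sub_right]
  push_cast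
  ring

theorem U_eq (a : OrthonormalBasis ι ℂ E) (b : OrthonormalBasis κ ℂ E) (α : ι → ℂ) (β : κ → ℂ)
    (δ : ℝ) (x : E) (y θ : ℝ) :
    U (ss α β δ) (cc a b x) y θ = ∑ i, (cexp (-(y * inner ℝ (cexp (θ * I)) (α i / δ) : ℝ) * I) *
      inner ℂ (a i) (VV b β δ x (cexp (θ * I)) y)) • a i := by
  rw [U, Fintype.sum_prod_type]
  refine Finset.sum_congr rfl fun i _ => ?_
  rw [VV, inner_sum, Finset.mul_sum, Finset.sum_smul]
  refine Finset.sum_congr rfl fun k _ => ?_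
  rw [cc, smul_smul, inner_smul_right, Alg1_exp]
  congr 1
  ring

private theorem Alg1_X (a : OrthonormalBasis ι ℂ E) (b : OrthonormalBasis κ ℂ E) (A B : E →L[ℂ] E)
    (α : ι → ℂ) (β : κ → ℂ)
    (hA : ∀ i, A (a i) = α i • a i) (hB : ∀ k, B (b k) = β k • b k)
    (hA' : ∀ i, adjoint A (a i) = (starRingEnd ℂ (α i)) • a i)
    (hB' : ∀ k, adjoint B (b k) = (starRingEnd ℂ (β k)) • b k)
    (δ : ℝ) (d : ℂ) (i : ι) (k : κ) :
    inner ℂ (a i) ((I / δ) • Xd (B - A) d (b k)) =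
      (inner ℝ d (ss α β δ (i, k)) : ℝ) * I * inner ℂ (a i) (b k) := by
  have g1 : inner ℂ (a i) (A (b k)) = α i * inner ℂ (a i) (b k) := by
    rw [← adjoint_inner_left, hA', inner_smul_left, Complex.conj_conj]
  have g2 : inner ℂ (a i) (adjoint A (b k)) = starRingEnd ℂ (α i) * inner ℂ (a i) (b k) := by
    rw [adjoint_inner_right, hA, inner_smul_left]
  rw [Xd, smul_apply, add_apply, smul_apply, smul_apply, map_sub, sub_apply, sub_apply,
    hB, hB', inner_smul_right, inner_smul_right, inner_add_right, inner_smul_right, inner_smul_right,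
    inner_sub_right, inner_sub_right, g1, g2, inner_smul_right, inner_smul_right,
    real_inner_eq, ss]
  simp only [map_div₀, map_sub, Complex.conj_ofReal]
  by_cases hδ : (δ : ℂ) = 0
  · rw [hδ]
    simp
  · field_simp

theorem Ud_eq (a : OrthonormalBasis ι ℂ E) (b : OrthonormalBasis κ ℂ E) (A B : E →L[ℂ] E)
    (α : ι → ℂ) (β : κ → ℂ)
    (hA : ∀ i, A (a i) = α i • a i) (hB : ∀ k, B (b k) = β k • b k)
    (hA' : ∀ i, adjoint A (a i) = (starRingEnd ℂ (α i)) • a i)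
    (hB' : ∀ k, adjoint B (b k) = (starRingEnd ℂ (β k)) • b k)
    (δ : ℝ) (x : E) (d : ℂ) (y θ : ℝ) :
    Ud (ss α β δ) (cc a b x) d y θ =
      ∑ i, (cexp (-(y * inner ℝ (cexp (θ * I)) (α i / δ) : ℝ) * I) *
      inner ℂ (a i) ((I / δ) • Xd (B - A) d (VV b β δ x (cexp (θ * I)) y))) • a i := by
  rw [Ud, Fintype.sum_prod_type]
  refine Finset.sum_congr rfl fun i _ => ?_
  rw [VV, map_sum, Finset.smul_sum, inner_sum, Finset.mul_sum, Finset.sum_smul]
  refine Finset.sum_congr rfl fun k _ => ?_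
  rw [cc, smul_smul, map_smul, smul_comm, inner_smul_right, Alg1_X a b A B α β hA hB hA' hB', Alg1_exp]
  congr 1
  simp only
  ring

end SpecVar.D
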