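import Mathlib
import Pool.Agent.Lib.MP_29a676_an.D.Alg1

/-!
# The map `u` (Step 2 of the page): row Alg2
-/

set_option autoImplicit false

namespace SpecVar.D

open ContinuousLinearMap Complex

variable {E : Type*} [NormedAddCommGroup E] [InnerProductSpace ℂ E] [FiniteDimensional ℂ E]
variable {ι κ : Type*} [Fintype ι] [Fintype κ]

omit [FiniteDimensional ℂ E] in
/-- The unitary diagonal operator. -/
theorem inner_diag (a : OrthonormalBasis ι ℂ E) (r : ι → ℝ) (v w : E) :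
    inner ℂ (∑ i, (cexp (-(r i : ℝ) * I) * inner ℂ (a i) v) • a i)
      (∑ i, (cexp (-(r i : ℝ) * I) * inner ℂ (a i) w) • a i) = inner ℂ v w := by
  rw [a.orthonormal.inner_sum, ← a.sum_inner_mul_inner v w]
  refine Finset.sum_congr rfl fun i _ => ?_
  have h1 : (starRingEnd ℂ) (cexp (-(r i : ℝ) * I)) * cexp (-(r i : ℝ) * I) = 1 := by
    rw [← Complex.exp_conj, ← Complex.exp_add]
    simp
  rw [map_mul, inner_conj_symm]
  linear_combination (inner ℂ v (a i) * inner ℂ (a i) w) * h1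

omit [FiniteDimensional ℂ E] in
theorem norm_diag (a : OrthonormalBasis ι ℂ E) (r : ι → ℝ) (v : E) :
    ‖∑ i, (cexp (-(r i : ℝ) * I) * inner ℂ (a i) v) • a i‖ = ‖v‖ := by
  have h := inner_diag a r v v
  rw [inner_self_eq_norm_sq_to_K, inner_self_eq_norm_sq_to_K] at h
  have h2 : ‖∑ i, (cexp (-(r i : ℝ) * I) * inner ℂ (a i) v) • a i‖ ^ 2 = ‖v‖ ^ 2 := by
    exact_mod_cast h
  exact (pow_left_inj₀ (norm_nonneg _) (norm_nonneg _) two_ne_zero).mp h2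

private theorem Alg2_apply (X : E →L[ℂ] E) (d : ℂ) (v : E) :
    Xd X d v = (1 / 2 : ℂ) • ((starRingEnd ℂ d) • X v + d • adjoint X v) := rfl

/-- Parallelogram identity. -/
theorem Xd_sq (X : E →L[ℂ] E) {d : ℂ} (hd : ‖d‖ = 1) (v : E) :
    ‖Xd X d v‖ ^ 2 + ‖Xd X (I * d) v‖ ^ 2 ≤ ‖X‖ ^ 2 * ‖v‖ ^ 2 := by
  set p : E := (starRingEnd ℂ d) • X v with hp
  set q : E := d • adjoint X v with hq
  have e1 : Xd X d v = (1 / 2 : ℂ) • (p + q) := Alg2_apply X d v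
  have e2 : Xd X (I * d) v = (-I / 2 : ℂ) • (p - q) := by
    rw [Alg2_apply, hp, hq, map_mul, Complex.conj_I]
    module
  have hp1 : ‖p‖ ≤ ‖X‖ * ‖v‖ := by
    rw [hp, norm_smul, RCLike.norm_conj, hd, one_mul]
    exact X.le_opNorm v
  have hq1 : ‖q‖ ≤ ‖X‖ * ‖v‖ := by
    rw [hq, norm_smul, hd, one_mul]
    have := (adjoint X).le_opNorm v
    rwa [LinearIsometryEquiv.norm_map] at this
  have hpar := parallelogram_law_with_norm ℂ p q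
  rw [e1, e2, norm_smul, norm_smul]
  have n1 : ‖(1 / 2 : ℂ)‖ = 1 / 2 := by simp
  have n2 : ‖(-I / 2 : ℂ)‖ = 1 / 2 := by simp
  rw [n1, n2]
  have h3 : ‖p‖ ^ 2 ≤ (‖X‖ * ‖v‖) ^ 2 := pow_le_pow_left₀ (norm_nonneg _) hp1 2
  have h4 : ‖q‖ ^ 2 ≤ (‖X‖ * ‖v‖) ^ 2 := pow_le_pow_left₀ (norm_nonneg _) hq1 2
  nlinarith

theorem Xd_self (X : E →L[ℂ] E) (d : ℂ) (v : E) : (inner ℂ v (Xd X d v)).im = 0 := by
  have h : inner ℂ v (Xd X d v) = (1 / 2 : ℂ) *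
      ((starRingEnd ℂ d * inner ℂ v (X v)) + (starRingEnd ℂ) (starRingEnd ℂ d * inner ℂ v (X v))) := by
    rw [Alg2_apply, inner_smul_right, inner_add_right, inner_smul_right, inner_smul_right,
      adjoint_inner_right, map_mul, Complex.conj_conj, inner_conj_symm]
  rw [h, Complex.add_conj]
  have : (1 / 2 : ℂ) * ((2 * (starRingEnd ℂ d * inner ℂ v (X v)).re : ℝ) : ℂ) =
      (((starRingEnd ℂ d * inner ℂ v (X v)).re : ℝ) : ℂ) := by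
    push_cast
    ring
  rw [this, Complex.ofReal_im]

theorem energy_U (a : OrthonormalBasis ι ℂ E) (b : OrthonormalBasis κ ℂ E) (A B : E →L[ℂ] E)
    (α : ι → ℂ) (β : κ → ℂ)
    (hA : ∀ i, A (a i) = α i • a i) (hB : ∀ k, B (b k) = β k • b k)
    (hA' : ∀ i, adjoint A (a i) = (starRingEnd ℂ (α i)) • a i)
    (hB' : ∀ k, adjoint B (b k) = (starRingEnd ℂ (β k)) • b k)
    {δ : ℝ} (hδ : 0 < δ) (hAB : 31 / 20 * ‖A - B‖ ≤ δ) {x : E} (hx : ‖x‖ = 1) (y θ : ℝ) :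
    ‖Ur (ss α β δ) (cc a b x) y θ‖ ^ 2 + ‖Ut (ss α β δ) (cc a b x) y θ‖ ^ 2 ≤ 400 / 961 := by
  set v : E := VV b β δ x (cexp (θ * I)) y with hv
  have hv1 : ‖v‖ = 1 := by rw [hv, norm_VV, hx]
  have hn : ∀ d : ℂ, ‖Ud (ss α β δ) (cc a b x) d y θ‖ = δ⁻¹ * ‖Xd (B - A) d v‖ := by
    intro d
    rw [Ud_eq a b A B α β hA hB hA' hB',
      norm_diag a (fun i => y * inner ℝ (cexp (θ * I)) (α i / δ)), norm_smul]
    congr 1
    rw [norm_div, Complex.norm_I, Complex.norm_real, Real.norm_eq_abs, abs_of_pos hδ, one_div]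
  have hd : ‖cexp (θ * I)‖ = 1 := Complex.norm_exp_ofReal_mul_I θ
  have h1 := Xd_sq (B - A) hd v
  rw [hv1, one_pow, mul_one] at h1
  rw [Ur, Ut, hn, hn]
  have h2 : ‖B - A‖ ≤ 20 / 31 * δ := by
    rw [norm_sub_rev]
    linarith
  have h3 : ‖B - A‖ ^ 2 ≤ (20 / 31 * δ) ^ 2 := pow_le_pow_left₀ (norm_nonneg _) h2 2
  have h4 : (δ⁻¹ * ‖Xd (B - A) (cexp (θ * I)) v‖) ^ 2 + (δ⁻¹ * ‖Xd (B - A) (I * cexp (θ * I)) v‖) ^ 2 =
      (δ⁻¹) ^ 2 * (‖Xd (B - A) (cexp (θ * I)) v‖ ^ 2 + ‖Xd (B - A) (I * cexp (θ * I)) v‖ ^ 2) := by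
    ring
  rw [h4]
  calc (δ⁻¹) ^ 2 * (‖Xd (B - A) (cexp (θ * I)) v‖ ^ 2 + ‖Xd (B - A) (I * cexp (θ * I)) v‖ ^ 2)
      ≤ (δ⁻¹) ^ 2 * (20 / 31 * δ) ^ 2 :=
        mul_le_mul_of_nonneg_left (h1.trans h3) (by positivity)
    _ = 400 / 961 := by
        field_simp
        norm_num

end SpecVar.D
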