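import Mathlib
import Pool.Agent.Lib.MP_29a676_an.Linear

/-!
# The map `u` (Step 2 of the page): row Alg3
-/

set_option autoImplicit false

namespace SpecVar.D

open ContinuousLinearMap Complex

variable {E : Type*} [NormedAddCommGroup E] [InnerProductSpace ℂ E] [FiniteDimensional ℂ E]

/-- Step 1: the kernel vector. -/
theorem exists_ker {n : ℕ} (a b : OrthonormalBasis (Fin n) ℂ E) (S T : Finset (Fin n))
    (h : n < S.card + T.card) (K : Fin n → Fin n → ℂ) (hK : ∀ i ∈ S, ∀ k ∈ T, K i k = 0) :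
    ∃ x : E, ‖x‖ = 1 ∧ ∀ i, ∑ k, inner ℂ (a i) (b k) * inner ℂ (b k) x * K i k = 0 := by
  classical
  set L : E →ₗ[ℂ] (({i // i ∉ S} ⊕ {k // k ∉ T}) → ℂ) := LinearMap.pi
    (Sum.elim (fun i => (∑ k, (inner ℂ (a i.1) (b k) * K i.1 k) • (innerₛₗ ℂ (b k) : E →ₗ[ℂ] ℂ) : E →ₗ[ℂ] ℂ))
      (fun k => (innerₛₗ ℂ (b k.1) : E →ₗ[ℂ] ℂ)))
    with hL
  have hker : LinearMap.ker L ≠ ⊥ := by
    apply LinearMap.ker_ne_bot_of_finrank_lt
    rw [Module.finrank_pi, Fintype.card_sum, Module.finrank_eq_card_basis a.toBasis, Fintype.card_fin]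
    have h1 : Fintype.card {i // i ∉ S} = n - S.card := by
      simp [Fintype.card_subtype_compl]
    have h2 : Fintype.card {i // i ∉ T} = n - T.card := by
      simp [Fintype.card_subtype_compl]
    have h3 : S.card ≤ n := by simpa using Finset.card_le_univ S
    have h4 : T.card ≤ n := by simpa using Finset.card_le_univ T
    rw [h1, h2]
    omega
  obtain ⟨x, hx, hx0⟩ := Submodule.exists_mem_ne_zero_of_ne_bot hker
  have hxn : 0 < ‖x‖ := norm_pos_iff.mpr hx0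
  have hLx : L x = 0 := hx
  have hb : ∀ k, k ∉ T → (inner ℂ (b k) x) = 0 := fun k hk => congrFun hLx (Sum.inr ⟨k, hk⟩)
  have ha : ∀ i, ∑ k, inner ℂ (a i) (b k) * inner ℂ (b k) x * K i k = 0 := by
    intro i
    by_cases hi : i ∈ S
    · apply Finset.sum_eq_zero
      intro k _
      by_cases hk : k ∈ T
      · rw [hK i hi k hk, mul_zero]
      · rw [hb k hk, mul_zero, zero_mul]
    · have h1 : (∑ k, (inner ℂ (a i) (b k) * K i k) • (innerₛₗ ℂ (b k) : E →ₗ[ℂ] ℂ) : E →ₗ[ℂ] ℂ) x = 0 :=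
        congrFun hLx (Sum.inl ⟨i, hi⟩)
      rw [LinearMap.sum_apply] at h1
      rw [← h1]
      apply Finset.sum_congr rfl
      intro k _
      rw [LinearMap.smul_apply, smul_eq_mul]
      change _ = inner ℂ (a i) (b k) * K i k * inner ℂ (b k) x
      ring
  refine ⟨((‖x‖⁻¹ : ℝ) : ℂ) • x, ?_, ?_⟩
  · rw [norm_smul, Complex.norm_real, Real.norm_eq_abs, abs_of_pos (inv_pos.mpr hxn),
      inv_mul_cancel₀ hxn.ne']
  · intro i
    have h2 : ∀ k, inner ℂ (a i) (b k) * inner ℂ (b k) (((‖x‖⁻¹ : ℝ) : ℂ) • x) * K i k =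
        ((‖x‖⁻¹ : ℝ) : ℂ) * (inner ℂ (a i) (b k) * inner ℂ (b k) x * K i k) := by
      intro k
      rw [inner_smul_right]
      ring
    rw [Finset.sum_congr rfl fun k _ => h2 k, ← Finset.mul_sum, ha i, mul_zero]

end SpecVar.D
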