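import Mathlib
import Pool.Agent.Lib.MP_29a676_an.D.Alg2
import Pool.Agent.Lib.MP_29a676_an.D.Alg3

/-!
# The map `u` (Step 2 of the page)
-/

set_option autoImplicit false

namespace SpecVar.D

open ContinuousLinearMap Complex

variable {E : Type*} [NormedAddCommGroup E] [InnerProductSpace ℂ E] [FiniteDimensional ℂ E]
variable {ι κ : Type*} [Fintype ι] [Fintype κ]

theorem norm_U (a : OrthonormalBasis ι ℂ E) (b : OrthonormalBasis κ ℂ E) (α : ι → ℂ) (β : κ → ℂ)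
    (δ : ℝ) {x : E} (hx : ‖x‖ = 1) (y θ : ℝ) : ‖U (ss α β δ) (cc a b x) y θ‖ = 1 := by
  rw [U_eq, norm_diag a (fun i => y * inner ℝ (cexp (θ * I)) (α i / δ)), norm_VV, hx]

theorem orth_U (a : OrthonormalBasis ι ℂ E) (b : OrthonormalBasis κ ℂ E) (A B : E →L[ℂ] E)
    (α : ι → ℂ) (β : κ → ℂ)
    (hA : ∀ i, A (a i) = α i • a i) (hB : ∀ k, B (b k) = β k • b k)
    (hA' : ∀ i, adjoint A (a i) = (starRingEnd ℂ (α i)) • a i)
    (hB' : ∀ k, adjoint B (b k) = (starRingEnd ℂ (β k)) • b k)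
    (δ : ℝ) (x : E) (y θ : ℝ) :
    (inner ℂ (U (ss α β δ) (cc a b x) y θ) (Ur (ss α β δ) (cc a b x) y θ)).re = 0 := by
  rw [Ur, U_eq, Ud_eq a b A B α β hA hB hA' hB',
    inner_diag a (fun i => y * inner ℝ (cexp (θ * I)) (α i / δ)), inner_smul_right]
  have h := Xd_self (B - A) (cexp (θ * I)) (VV b β δ x (cexp (θ * I)) y)
  rw [show (I / δ : ℂ) = ((δ⁻¹ : ℝ) : ℂ) * I by push_cast; ring, mul_assoc, Complex.re_ofReal_mul,
    Complex.I_mul_re, h]
  simp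

end SpecVar.D
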