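import Mathlib

/-!
# Wirtinger's inequality on the circle
-/

set_option autoImplicit false

namespace SpecVar.D

open Set MeasureTheory intervalIntegral
open scoped Real

theorem memLp_of_cont {v : ℝ → ℂ} (hv : Continuous v) :
    MemLp v 2 (volume.restrict (Ioc (-π) π)) := by
  obtain ⟨C, hC⟩ := (isCompact_Icc (a := -π) (b := π)).exists_bound_of_continuousOn hv.continuousOn
  refine MemLp.of_bound hv.aestronglyMeasurable C ?_
  rw [ae_restrict_iff' measurableSet_Ioc]
  filter_upwards with t ht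
  exact hC t (Ioc_subset_Icc_self ht)

theorem wirtinger_complex {v v' : ℝ → ℂ} (hv : ∀ t, HasDerivAt v (v' t) t) (hc : Continuous v')
    (hp : v (-π) = v π) :
    ∫ t in (-π)..π, ‖v t‖ ^ 2 ≤ (2 * π)⁻¹ * ‖∫ t in (-π)..π, v t‖ ^ 2 +
      ∫ t in (-π)..π, ‖v' t‖ ^ 2 := by
  have hpi := Real.pi_pos
  have hab : (-π : ℝ) < π := by linarith
  have hvc : Continuous v := continuous_iff_continuousAt.2 fun y => (hv y).continuousAt
  have h1 := hasSum_sq_fourierCoeffOn hab (memLp_of_cont hvc)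
  have h2 := hasSum_sq_fourierCoeffOn hab (memLp_of_cont hc)
  have h3 : HasSum (fun n : ℤ => if n = 0 then ‖fourierCoeffOn hab v 0‖ ^ 2 else 0)
      (‖fourierCoeffOn hab v 0‖ ^ 2) := hasSum_ite_eq 0 _
  have h4 := hasSum_le (fun n => ?_) h1 (h3.add h2)
  · have h5 : fourierCoeffOn hab v 0 = (1 / (π - -π)) • ∫ x in (-π)..π, v x := by
      rw [fourierCoeffOn_eq_integral]
      simp
    rw [h5, norm_smul] at h4
    rw [Real.norm_eq_abs, abs_of_pos (by positivity)] at h4
    simp only [smul_eq_mul] at h4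
    have h6 : π - -π = 2 * π := by ring
    rw [h6] at h4
    have h7 := mul_le_mul_of_nonneg_left h4 (by positivity : 0 ≤ 2 * π)
    have e1 : 2 * π * ((2 * π)⁻¹ * ∫ x in (-π)..π, ‖v x‖ ^ 2) = ∫ x in (-π)..π, ‖v x‖ ^ 2 := by
      field_simp
    have e2 : 2 * π * ((1 / (2 * π) * ‖∫ x in (-π)..π, v x‖) ^ 2 +
        (2 * π)⁻¹ * ∫ x in (-π)..π, ‖v' x‖ ^ 2) =
        (2 * π)⁻¹ * ‖∫ t in (-π)..π, v t‖ ^ 2 + ∫ t in (-π)..π, ‖v' t‖ ^ 2 := by
      field_simp
    rw [e1, e2] at h7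
    exact h7
  · by_cases hn : n = 0
    · subst hn
      simp
    · simp only [hn, if_false, zero_add]
      have h5 := fourierCoeffOn_of_hasDerivAt hab hn (fun x _ => hv x)
        (hc.intervalIntegrable (-π) π)
      rw [hp, sub_self, mul_zero, zero_sub] at h5
      have h6 : ‖fourierCoeffOn hab v n‖ = (1 / |(n : ℝ)|) * ‖fourierCoeffOn hab v' n‖ := by
        rw [h5]
        simp only [norm_mul, norm_div, norm_neg, norm_one, Complex.norm_I, Complex.norm_real,
          Complex.norm_intCast]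
        have h8 : ‖((π : ℂ) - ((-π : ℝ) : ℂ))‖ = 2 * π := by
          have : ((π : ℂ) - ((-π : ℝ) : ℂ)) = ((2 * π : ℝ) : ℂ) := by push_cast; ring
          rw [this, Complex.norm_real, Real.norm_eq_abs, abs_of_pos (by positivity)]
        rw [h8]
        have h9 : ‖(2 : ℂ)‖ = 2 := by simp
        rw [h9, Real.norm_eq_abs, abs_of_pos hpi]
        have h10 : |(n : ℝ)| ≠ 0 := by simpa using hn
        field_simp
      rw [h6, mul_pow]
      have h7 : (1 / |(n : ℝ)|) ^ 2 ≤ 1 := by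
        have h8 : (1 : ℝ) ≤ |(n : ℝ)| := by
          exact_mod_cast Int.one_le_abs hn
        rw [div_pow, one_pow, div_le_one (by positivity)]
        nlinarith
      exact mul_le_of_le_one_left (sq_nonneg _) h7

variable {E : Type*} [NormedAddCommGroup E] [InnerProductSpace ℂ E] [FiniteDimensional ℂ E]

theorem wirtinger {v v' : ℝ → E} (hv : ∀ t, HasDerivAt v (v' t) t) (hc : Continuous v')
    (hp : v (-π) = v π) :
    ∫ t in (-π)..π, ‖v t‖ ^ 2 ≤ (2 * π)⁻¹ * ‖∫ t in (-π)..π, v t‖ ^ 2 +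
      ∫ t in (-π)..π, ‖v' t‖ ^ 2 := by
  have hvc : Continuous v := continuous_iff_continuousAt.2 fun y => (hv y).continuousAt
  haveI : CompleteSpace E := FiniteDimensional.complete ℂ E
  set b := stdOrthonormalBasis ℂ E with hb
  have hn : ∀ x : E, ‖x‖ ^ 2 = ∑ j, ‖inner ℂ (b j) x‖ ^ 2 := fun x =>
    (b.sum_sq_norm_inner_right x).symm
  have hi : ∀ {w : ℝ → E}, Continuous w → ∀ j, Continuous fun t => inner ℂ (b j) (w t) :=
    fun hw j => continuous_const.inner hw
  have e1 : ∀ {w : ℝ → E}, Continuous w → ∫ t in (-π)..π, ‖w t‖ ^ 2 =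
      ∑ j, ∫ t in (-π)..π, ‖inner ℂ (b j) (w t)‖ ^ 2 := by
    intro w hw
    rw [← intervalIntegral.integral_finsetSum]
    · simp only [hn]
    · intro j _
      exact (((hi hw j).norm).pow 2).intervalIntegrable _ _
  have e2 : ∀ j, inner ℂ (b j) (∫ t in (-π)..π, v t) = ∫ t in (-π)..π, inner ℂ (b j) (v t) := by
    intro j
    exact ((innerSL ℂ (b j)).intervalIntegral_comp_comm (hvc.intervalIntegrable _ _)).symm
  rw [e1 hvc, e1 hc, hn, Finset.mul_sum, ← Finset.sum_add_distrib]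
  refine Finset.sum_le_sum fun j _ => ?_
  rw [e2]
  refine wirtinger_complex (fun t => ?_) (hi hc j) (by rw [hp])
  exact ((innerSL ℂ (b j)).restrictScalars ℝ).hasFDerivAt.comp_hasDerivAt t (hv t)

end SpecVar.D
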