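import Mathlib
import Pool.Agent.Lib.MP_29a676_an.D.Wirt

/-!
# The inequality for the circle means
-/

set_option autoImplicit false

namespace SpecVar.D

open Set MeasureTheory intervalIntegral
open scoped Real RealInnerProductSpace

set_option linter.unusedSectionVars false

variable {E : Type*} [NormedAddCommGroup E] [InnerProductSpace ℂ E] [FiniteDimensional ℂ E]

theorem circP_sq {p : ℝ → ℝ} (hp : Continuous p) :
    ((2 * π)⁻¹ * ∫ t in (-π)..π, p t) ^ 2 ≤ (2 * π)⁻¹ * ∫ t in (-π)..π, p t ^ 2 := by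
  have hL : 0 < 2 * π := by positivity
  set c : ℝ := (2 * π)⁻¹ * ∫ t in (-π)..π, p t with hc
  have h1 : 0 ≤ ∫ t in (-π)..π, (p t - c) ^ 2 :=
    intervalIntegral.integral_nonneg (by linarith [Real.pi_pos]) fun t _ => sq_nonneg _
  have h2 : ∫ t in (-π)..π, (p t - c) ^ 2 =
      (∫ t in (-π)..π, p t ^ 2) - 2 * c * (∫ t in (-π)..π, p t) + c ^ 2 * (2 * π) := by
    have e1 : ∀ t, (p t - c) ^ 2 = p t ^ 2 - 2 * c * p t + c ^ 2 := fun t => by ring
    simp only [e1]
    rw [intervalIntegral.integral_add, intervalIntegral.integral_sub,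
      intervalIntegral.integral_const_mul, intervalIntegral.integral_const]
    · simp only [smul_eq_mul]; ring
    · exact (hp.pow 2).intervalIntegrable _ _
    · exact (continuous_const.mul hp).intervalIntegrable _ _
    · exact ((hp.pow 2).sub (continuous_const.mul hp)).intervalIntegrable _ _
    · exact continuous_const.intervalIntegrable _ _
  have h3 : ∫ t in (-π)..π, p t = 2 * π * c := by
    rw [hc, ← mul_assoc, mul_inv_cancel₀ hL.ne', one_mul]
  rw [h2, h3] at h1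
  rw [inv_mul_eq_div, le_div_iff₀ hL]
  nlinarith

theorem circP_norm {z : ℝ → E} (hz : Continuous z) :
    ‖(2 * π)⁻¹ • ∫ t in (-π)..π, z t‖ ^ 2 ≤ (2 * π)⁻¹ * ∫ t in (-π)..π, ‖z t‖ ^ 2 := by
  have hL : 0 < 2 * π := by positivity
  refine le_trans ?_ (circP_sq hz.norm)
  rw [norm_smul, Real.norm_of_nonneg (by positivity)]
  refine pow_le_pow_left₀ (by positivity) ?_ 2
  refine mul_le_mul_of_nonneg_left ?_ (by positivity)
  exact intervalIntegral.norm_integral_le_integral_norm (by linarith [Real.pi_pos])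

theorem circP_smul (r : ℝ) (x z : E) : (inner ℂ z (r • x)).re = r * (inner ℂ z x).re := by
  rw [← Complex.coe_smul, inner_smul_right, Complex.re_ofReal_mul]

theorem circP_sub (x y : E) (κ : ℝ) :
    ‖x - κ • y‖ ^ 2 = ‖x‖ ^ 2 - 2 * κ * (inner ℂ y x).re + κ ^ 2 * ‖y‖ ^ 2 := by
  have h := @norm_sub_sq ℂ E _ _ _ x (κ • y)
  have h2 : (inner ℂ x (κ • y)).re = κ * (inner ℂ y x).re := by
    rw [circP_smul, ← inner_conj_symm x y, Complex.conj_re]
  have h3 : ‖x - κ • y‖ ^ 2 = ‖x‖ ^ 2 - 2 * (inner ℂ x (κ • y)).re + ‖κ • y‖ ^ 2 := h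
  rw [h3, h2, norm_smul, mul_pow, Real.norm_eq_abs, sq_abs]
  ring

/-- Step 3 of the page: `u` is the restriction to the circle of radius `y`, `w` the radial
derivative, `v` the tangential derivative. -/
theorem circle_star {y : ℝ} (hy : 0 < y) {u w v : ℝ → E}
    (hu : ∀ t, HasDerivAt u (y • v t) t) (hv : Continuous v) (hw : Continuous w)
    (hp : u (-π) = u π) (hn : ∀ t, ‖u t‖ = 1) (ho : ∀ t, (inner ℂ (u t) (w t)).re = 0)
    (he : ∀ t, ‖w t‖ ^ 2 + ‖v t‖ ^ 2 ≤ 400 / 961) (κ : ℝ) :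
    ‖(2 * π)⁻¹ • ∫ t in (-π)..π, w t‖ ^ 2 -
      2 * κ * (inner ℂ ((2 * π)⁻¹ • ∫ t in (-π)..π, u t) ((2 * π)⁻¹ • ∫ t in (-π)..π, w t)).re +
      (1 / y ^ 2 - κ ^ 2) * (1 - ‖(2 * π)⁻¹ • ∫ t in (-π)..π, u t‖ ^ 2) ≤ 400 / 961 := by
  have hL : 0 < 2 * π := by positivity
  have huc : Continuous u := continuous_iff_continuousAt.2 fun t => (hu t).continuousAt
  set U : E := (2 * π)⁻¹ • ∫ t in (-π)..π, u t with hU
  set W : E := (2 * π)⁻¹ • ∫ t in (-π)..π, w t with hW
  set mw : ℝ := (2 * π)⁻¹ * ∫ t in (-π)..π, ‖w t‖ ^ 2 with hmw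
  set mv : ℝ := (2 * π)⁻¹ * ∫ t in (-π)..π, ‖v t‖ ^ 2 with hmv
  have iw : IntervalIntegrable (fun t => ‖w t‖ ^ 2) volume (-π) π :=
    (hw.norm.pow 2).intervalIntegrable _ _
  have iv : IntervalIntegrable (fun t => ‖v t‖ ^ 2) volume (-π) π :=
    (hv.norm.pow 2).intervalIntegrable _ _
  have iku : IntervalIntegrable (fun t => κ • u t) volume (-π) π :=
    (continuous_const.smul huc).intervalIntegrable _ _
  have ik : IntervalIntegrable (fun _ : ℝ => κ ^ 2) volume (-π) π :=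
    continuous_const.intervalIntegrable _ _
  have hsum : mw + mv ≤ 400 / 961 := by
    have h1 : ∫ t in (-π)..π, (‖w t‖ ^ 2 + ‖v t‖ ^ 2) ≤ ∫ t in (-π)..π, (400 / 961 : ℝ) := by
      refine intervalIntegral.integral_mono_on (by linarith [Real.pi_pos]) ?_ ?_ fun t _ => he t
      · exact iw.add iv
      · exact continuous_const.intervalIntegrable _ _
    rw [intervalIntegral.integral_add iw iv, intervalIntegral.integral_const] at h1
    have h2 := mul_le_mul_of_nonneg_left h1 (inv_pos.2 hL).le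
    rw [mul_add, ← hmw, ← hmv] at h2
    have h3 : (2 * π)⁻¹ * ((π - -π) • (400 / 961 : ℝ)) = 400 / 961 := by
      rw [smul_eq_mul, sub_neg_eq_add, ← two_mul, ← mul_assoc, inv_mul_cancel₀ hL.ne', one_mul]
    rw [h3] at h2
    exact h2
  -- the variance of `w - κ u`
  have hvar : ‖W‖ ^ 2 - 2 * κ * (inner ℂ U W).re + κ ^ 2 * ‖U‖ ^ 2 ≤ mw + κ ^ 2 := by
    have h1 := circP_norm (z := fun t => w t - κ • u t) (hw.sub (continuous_const.smul huc))
    have h2 : (2 * π)⁻¹ • ∫ t in (-π)..π, (w t - κ • u t) = W - κ • U := by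
      rw [intervalIntegral.integral_sub (hw.intervalIntegrable _ _) iku,
        intervalIntegral.integral_smul, smul_sub, smul_comm _ κ]
    have h3 : (2 * π)⁻¹ * ∫ t in (-π)..π, ‖w t - κ • u t‖ ^ 2 = mw + κ ^ 2 := by
      have e1 : ∀ t, ‖w t - κ • u t‖ ^ 2 = ‖w t‖ ^ 2 + κ ^ 2 := by
        intro t
        rw [circP_sub, ho t, hn t]
        ring
      simp only [e1]
      rw [intervalIntegral.integral_add iw ik, intervalIntegral.integral_const, mul_add,
        ← hmw, smul_eq_mul, sub_neg_eq_add, ← two_mul, ← mul_assoc, inv_mul_cancel₀ hL.ne',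
        one_mul]
    rw [h2, h3, circP_sub] at h1
    exact h1
  -- Wirtinger
  have hwir : 1 - ‖U‖ ^ 2 ≤ y ^ 2 * mv := by
    have h1 := wirtinger hu (continuous_const.smul hv) hp
    have h2 : ∫ t in (-π)..π, ‖u t‖ ^ 2 = 2 * π := by
      simp only [hn, one_pow]
      rw [intervalIntegral.integral_const, smul_eq_mul]
      ring
    have h3 : ∫ t in (-π)..π, ‖y • v t‖ ^ 2 = y ^ 2 * (2 * π * mv) := by
      have e1 : ∀ t, ‖y • v t‖ ^ 2 = y ^ 2 * ‖v t‖ ^ 2 := by
        intro t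
        rw [norm_smul, mul_pow, Real.norm_eq_abs, sq_abs]
      simp only [e1]
      rw [intervalIntegral.integral_const_mul, hmv, ← mul_assoc (2 * π), mul_inv_cancel₀ hL.ne',
        one_mul]
    have h4 : ‖∫ t in (-π)..π, u t‖ ^ 2 = (2 * π) ^ 2 * ‖U‖ ^ 2 := by
      rw [hU, norm_smul, Real.norm_of_nonneg (inv_pos.2 hL).le, ← mul_pow, ← mul_assoc,
        mul_inv_cancel₀ hL.ne', one_mul]
    rw [h2, h3, h4] at h1
    have h5 : (2 * π)⁻¹ * ((2 * π) ^ 2 * ‖U‖ ^ 2) = 2 * π * ‖U‖ ^ 2 := by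
      field_simp
    rw [h5] at h1
    have h6 : 2 * π * (1 - ‖U‖ ^ 2) ≤ 2 * π * (y ^ 2 * mv) := by linarith
    exact le_of_mul_le_mul_left h6 hL
  have hwir2 : 1 / y ^ 2 * (1 - ‖U‖ ^ 2) ≤ mv := by
    rw [one_div, inv_mul_le_iff₀ (by positivity)]
    exact hwir
  have hfin : ‖W‖ ^ 2 - 2 * κ * (inner ℂ U W).re + (1 / y ^ 2 - κ ^ 2) * (1 - ‖U‖ ^ 2) ≤
      mw + mv := by
    have e : (1 / y ^ 2 - κ ^ 2) * (1 - ‖U‖ ^ 2) =
        1 / y ^ 2 * (1 - ‖U‖ ^ 2) - κ ^ 2 + κ ^ 2 * ‖U‖ ^ 2 := by ring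
    rw [e]
    linarith
  exact hfin.trans hsum

/-- the real part of the product with `n` -/
noncomputable def circP_L (n : E) : E →L[ℝ] ℝ :=
  Complex.reCLM.comp ((innerSL ℂ n).restrictScalars ℝ)

theorem circP_L_apply (n x : E) : circP_L n x = (inner ℂ n x).re := rfl

theorem circP_int {u : ℝ → E} (hu : Continuous u) (n : E) :
    (inner ℂ n ((2 * π)⁻¹ • ∫ t in (-π)..π, u t)).re =
      (2 * π)⁻¹ * ∫ t in (-π)..π, (inner ℂ n (u t)).re := by
  rw [circP_smul]
  congr 1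
  have h := (circP_L n).intervalIntegral_comp_comm (hu.intervalIntegrable (-π) π)
    (μ := volume)
  exact h.symm

theorem circle_tail {u w : ℝ → E} (hu : Continuous u) (hw : Continuous w)
    (hn : ∀ t, ‖u t‖ = 1) (ho : ∀ t, (inner ℂ (u t) (w t)).re = 0)
    (he : ∀ t, ‖w t‖ ^ 2 ≤ 400 / 961) {n : E} (h1 : ‖n‖ = 1) :
    (inner ℂ n ((2 * π)⁻¹ • ∫ t in (-π)..π, u t)).re ^ 2 +
      961 / 400 * (inner ℂ n ((2 * π)⁻¹ • ∫ t in (-π)..π, w t)).re ^ 2 ≤ 1 := by
  have hL : 0 < 2 * π := by positivity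
  rw [circP_int hu, circP_int hw]
  have hcu : Continuous fun t => (inner ℂ n (u t)).re := (circP_L n).continuous.comp hu
  have hcw : Continuous fun t => (inner ℂ n (w t)).re := (circP_L n).continuous.comp hw
  have h2 := circP_sq hcu
  have h3 := circP_sq hcw
  have hpt : ∀ t, (inner ℂ n (u t)).re ^ 2 + 961 / 400 * (inner ℂ n (w t)).re ^ 2 ≤ 1 := by
    intro t
    set p : ℝ := (inner ℂ n (u t)).re with hp
    set q : ℝ := (inner ℂ n (w t)).re with hq
    have e1 : ‖(n - p • u t) - (961 / 400 * q) • w t‖ ^ 2 =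
        1 - p ^ 2 - 2 * (961 / 400 * q) * q + (961 / 400 * q) ^ 2 * ‖w t‖ ^ 2 := by
      rw [circP_sub, circP_sub, h1, hn t]
      have e2 : (inner ℂ (w t) (n - p • u t)).re = q := by
        rw [inner_sub_right, Complex.sub_re, circP_smul]
        have e3 : (inner ℂ (w t) (u t)).re = 0 := by
          rw [← inner_conj_symm, Complex.conj_re]
          exact ho t
        have e4 : (inner ℂ (w t) n).re = q := by
          rw [← inner_conj_symm, Complex.conj_re]
        rw [e3, e4]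
        ring
      have e5 : (inner ℂ (u t) n).re = p := by
        rw [← inner_conj_symm, Complex.conj_re]
      rw [e2, e5]
      ring
    have e6 : 0 ≤ ‖(n - p • u t) - (961 / 400 * q) • w t‖ ^ 2 := sq_nonneg _
    rw [e1] at e6
    have e7 := mul_le_mul_of_nonneg_left (he t) (sq_nonneg (961 / 400 * q))
    nlinarith
  have i1 : IntervalIntegrable (fun t => (inner ℂ n (u t)).re ^ 2) volume (-π) π :=
    (hcu.pow 2).intervalIntegrable _ _
  have i2 : IntervalIntegrable (fun t => 961 / 400 * (inner ℂ n (w t)).re ^ 2) volume (-π) π :=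
    (continuous_const.mul (hcw.pow 2)).intervalIntegrable _ _
  have h4 : ∫ t in (-π)..π, ((inner ℂ n (u t)).re ^ 2 + 961 / 400 * (inner ℂ n (w t)).re ^ 2) ≤
      ∫ t in (-π)..π, (1 : ℝ) := by
    refine intervalIntegral.integral_mono_on (by linarith [Real.pi_pos]) ?_ ?_ fun t _ => hpt t
    · exact i1.add i2
    · exact continuous_const.intervalIntegrable _ _
  rw [intervalIntegral.integral_add i1 i2,
    intervalIntegral.integral_const_mul, intervalIntegral.integral_const] at h4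
  have h5 := mul_le_mul_of_nonneg_left h4 (inv_pos.2 hL).le
  have h6 : (2 * π)⁻¹ * ((π - -π) • (1 : ℝ)) = 1 := by
    rw [smul_eq_mul, sub_neg_eq_add, ← two_mul, mul_one, inv_mul_cancel₀ hL.ne']
  rw [h6, mul_add] at h5
  have h7 : (2 * π)⁻¹ * (961 / 400 * ∫ t in (-π)..π, (inner ℂ n (w t)).re ^ 2) =
      961 / 400 * ((2 * π)⁻¹ * ∫ t in (-π)..π, (inner ℂ n (w t)).re ^ 2) := by ring
  rw [h7] at h5
  linarith

end SpecVar.D
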