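import Mathlib

/-!
# The polynomial weights

`P`, `om`, `Q`, `lam`, `H`, `W` are polynomials in `y` (page 29a676_H77.md, Step 4), `P1`, `Q1`, `H1`, `R1` the derivatives of
`P`, `Q`, `H` and of `R = om * H'`.
-/

set_option autoImplicit false

namespace SpecVar.D

open Set

/-- `p (y ^ 2)`. -/
noncomputable def P (y : ℝ) : ℝ :=
  752247/2000000 - 1129721/20000000 * y ^ 2 + 130859/40000000 * y ^ 4 - 8773/100000000 * y ^ 6 +
    23/25000000 * y ^ 8

/-- Derivative of `P`. -/
noncomputable def P1 (y : ℝ) : ℝ :=
  - 1129721/10000000 * y + 130859/10000000 * y ^ 3 - 26319/50000000 * y ^ 5 + 23/3125000 * y ^ 7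

/-- The energy weight. -/
noncomputable def om (y : ℝ) : ℝ := y * P y

/-- `om * κ`, where `κ = 1 / y - (9 / 100) * y`. -/
noncomputable def Q (y : ℝ) : ℝ := P y * (1 - 9/100 * y ^ 2)

/-- Derivative of `Q`. -/
noncomputable def Q1 (y : ℝ) : ℝ := P1 y * (1 - 9/100 * y ^ 2) - P y * (9/50 * y)

/-- The mass weight. -/
noncomputable def lam (y : ℝ) : ℝ := y * P y * (9/50 - 81/10000 * y ^ 2) - Q1 y

/-- The trial function. -/
noncomputable def H (y : ℝ) : ℝ := 1 - 3/25 * y ^ 2 + 7/2500 * y ^ 4 - 3/50000 * y ^ 6

/-- Derivative of `H`. -/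
noncomputable def H1 (y : ℝ) : ℝ := - 6/25 * y + 7/625 * y ^ 3 - 9/25000 * y ^ 5

/-- `om * H'`. -/
noncomputable def R (y : ℝ) : ℝ := om y * H1 y

/-- Derivative of `R`. -/
noncomputable def R1 (y : ℝ) : ℝ :=
  (P y + y * P1 y) * H1 y + y * P y * (- 6/25 + 21/625 * y ^ 2 - 9/5000 * y ^ 4)

/-- The approximation of the kernel `f`. -/
noncomputable def W (y : ℝ) : ℝ := lam y * H y + R1 y

/-- `∫ W H`. -/
noncomputable def tau : ℝ := 623135500664438927085967824831/6459228160000000000000000000000

lemma hasDerivAt_P (y : ℝ) : HasDerivAt P (P1 y) y := by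
  have h := ((((hasDerivAt_const y (752247/2000000 : ℝ)).sub
    ((hasDerivAt_pow 2 y).const_mul (1129721/20000000))).add
    ((hasDerivAt_pow 4 y).const_mul (130859/40000000))).sub
    ((hasDerivAt_pow 6 y).const_mul (8773/100000000))).add
    ((hasDerivAt_pow 8 y).const_mul (23/25000000))
  refine h.congr_deriv ?_
  unfold P1
  norm_num
  ring

lemma hasDerivAt_om (y : ℝ) : HasDerivAt om (P y + y * P1 y) y := by
  have h := (hasDerivAt_id y).mul (hasDerivAt_P y)
  refine h.congr_deriv ?_
  simp

lemma hasDerivAt_Q (y : ℝ) : HasDerivAt Q (Q1 y) y := by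
  have h := (hasDerivAt_P y).mul ((hasDerivAt_const y (1 : ℝ)).sub ((hasDerivAt_pow 2 y).const_mul (9/100)))
  refine h.congr_deriv ?_
  unfold Q1
  norm_num
  ring

lemma hasDerivAt_H (y : ℝ) : HasDerivAt H (H1 y) y := by
  have h := (((hasDerivAt_const y (1 : ℝ)).sub ((hasDerivAt_pow 2 y).const_mul (3/25))).add
    ((hasDerivAt_pow 4 y).const_mul (7/2500))).sub ((hasDerivAt_pow 6 y).const_mul (3/50000))
  refine h.congr_deriv ?_
  unfold H1
  norm_num
  ring

lemma hasDerivAt_H1 (y : ℝ) : HasDerivAt H1 (- 6/25 + 21/625 * y ^ 2 - 9/5000 * y ^ 4) y := by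
  have h := (((hasDerivAt_id y).const_mul (- 6/25 : ℝ)).add
    ((hasDerivAt_pow 3 y).const_mul (7/625))).sub ((hasDerivAt_pow 5 y).const_mul (9/25000))
  refine h.congr_deriv ?_
  norm_num
  ring

lemma hasDerivAt_R (y : ℝ) : HasDerivAt R (R1 y) y := by
  have h := (hasDerivAt_om y).mul (hasDerivAt_H1 y)
  refine h.congr_deriv ?_
  unfold R1 om
  ring

lemma continuous_P : Continuous P := by unfold P; fun_prop

lemma continuous_P1 : Continuous P1 := by unfold P1; fun_prop

lemma continuous_om : Continuous om := by unfold om; have := continuous_P; fun_prop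

lemma continuous_Q : Continuous Q := by unfold Q; have := continuous_P; fun_prop

lemma continuous_Q1 : Continuous Q1 := by
  unfold Q1; have := continuous_P; have := continuous_P1; fun_prop

lemma continuous_lam : Continuous lam := by
  unfold lam; have := continuous_P; have := continuous_Q1; fun_prop

lemma continuous_H : Continuous H := by unfold H; fun_prop

lemma continuous_H1 : Continuous H1 := by unfold H1; fun_prop

lemma continuous_R : Continuous R := by
  unfold R; have := continuous_om; have := continuous_H1; fun_prop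

lemma continuous_R1 : Continuous R1 := by
  unfold R1; have := continuous_P; have := continuous_P1; have := continuous_H1; fun_prop

lemma continuous_W : Continuous W := by
  unfold W; have := continuous_lam; have := continuous_H; have := continuous_R1; fun_prop

lemma P_end : P (9/2) = 0 := by unfold P; norm_num

lemma om_zero : om 0 = 0 := by unfold om; norm_num

lemma om_end : om (9/2) = 0 := by unfold om; rw [P_end, mul_zero]

lemma Q_end : Q (9/2) = 0 := by unfold Q; rw [P_end, zero_mul]

lemma R_zero : R 0 = 0 := by unfold R; rw [om_zero, zero_mul]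

lemma R_end : R (9/2) = 0 := by unfold R; rw [om_end, zero_mul]

end SpecVar.D
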