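import Mathlib
import Pool.Agent.Lib.MP_29a676_an.Ineq
import Pool.Agent.Lib.MP_29a676_an.D.Wt

/-!
# `W` is close to the kernel `f`
-/

set_option autoImplicit false

namespace SpecVar.D

open Real Set MeasureTheory intervalIntegral

theorem gn_ge_S6 {y : ℝ} (hy : 0 ≤ y) : y ^ 3 / 3 - y ^ 5 / 30 + y ^ 7 / 840
    - y ^ 9 / 45360 + y ^ 11 / 3991680 - y ^ 13 / 518918400 ≤ gn y := by
  have h := nonneg_of_deriv (h := fun y => gn y - (y ^ 3 / 3 - y ^ 5 / 30 + y ^ 7 / 840
    - y ^ 9 / 45360 + y ^ 11 / 3991680 - y ^ 13 / 518918400))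
    (h' := fun y => y * (sin y - (y - y ^ 3 / 6 + y ^ 5 / 120 - y ^ 7 / 5040 + y ^ 9 / 362880
      - y ^ 11 / 39916800)))
    (fun t => by
      have h := (hasDerivAt_gn t).sub ((((((hasDerivAt_pow 3 t).div_const 3).sub
        ((hasDerivAt_pow 5 t).div_const 30)).add ((hasDerivAt_pow 7 t).div_const 840)).sub
        ((hasDerivAt_pow 9 t).div_const 45360)).add ((hasDerivAt_pow 11 t).div_const 3991680)|>.sub
        ((hasDerivAt_pow 13 t).div_const 518918400))
      refine h.congr_deriv ?_
      push_cast
      ring) (by simp [gn]) (fun t ht => mul_nonneg ht (by linarith [sin_ge_S6 ht])) y hy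
  linarith

/-- The Taylor polynomial of `f`. -/
noncomputable def TT (y : ℝ) : ℝ :=
  y / 15 - y ^ 3 / 210 + y ^ 5 / 7560 - y ^ 7 / 498960 + y ^ 9 / 51891840 - y ^ 11 / 7783776000

theorem fn_ge_S {y : ℝ} (hy : 0 ≤ y) : y ^ 5 / 15 - y ^ 7 / 210 + y ^ 9 / 7560
    - y ^ 11 / 498960 + y ^ 13 / 51891840 - y ^ 15 / 7783776000 ≤ fn y := by
  have h := nonneg_of_deriv (h := fun y => fn y - (y ^ 5 / 15 - y ^ 7 / 210 + y ^ 9 / 7560
    - y ^ 11 / 498960 + y ^ 13 / 51891840 - y ^ 15 / 7783776000))
    (h' := fun y => y * (gn y - (y ^ 3 / 3 - y ^ 5 / 30 + y ^ 7 / 840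
    - y ^ 9 / 45360 + y ^ 11 / 3991680 - y ^ 13 / 518918400)))
    (fun t => by
      have h := (hasDerivAt_fn t).sub ((((((hasDerivAt_pow 5 t).div_const 15).sub
        ((hasDerivAt_pow 7 t).div_const 210)).add ((hasDerivAt_pow 9 t).div_const 7560)).sub
        ((hasDerivAt_pow 11 t).div_const 498960)).add ((hasDerivAt_pow 13 t).div_const 51891840)|>.sub
        ((hasDerivAt_pow 15 t).div_const 7783776000))
      refine h.congr_deriv ?_
      push_cast
      ring) (by simp [fn]) (fun t ht => mul_nonneg ht (by linarith [gn_ge_S6 ht])) y hy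
  linarith

theorem fn_le_S {y : ℝ} (hy : 0 ≤ y) : fn y ≤ y ^ 5 / 15 - y ^ 7 / 210 + y ^ 9 / 7560
    - y ^ 11 / 498960 + y ^ 13 / 51891840 - y ^ 15 / 7783776000 + y ^ 17 / 1587890304000 := by
  have h := nonneg_of_deriv (h := fun y => (y ^ 5 / 15 - y ^ 7 / 210 + y ^ 9 / 7560
    - y ^ 11 / 498960 + y ^ 13 / 51891840 - y ^ 15 / 7783776000 + y ^ 17 / 1587890304000) - fn y)
    (h' := fun y => y * ((y ^ 3 / 3 - y ^ 5 / 30 + y ^ 7 / 840
    - y ^ 9 / 45360 + y ^ 11 / 3991680 - y ^ 13 / 518918400 + y ^ 15 / 93405312000) - gn y))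
    (fun t => by
      have h := ((((((((hasDerivAt_pow 5 t).div_const 15).sub
        ((hasDerivAt_pow 7 t).div_const 210)).add ((hasDerivAt_pow 9 t).div_const 7560)).sub
        ((hasDerivAt_pow 11 t).div_const 498960)).add ((hasDerivAt_pow 13 t).div_const 51891840)).sub
        ((hasDerivAt_pow 15 t).div_const 7783776000)).add
        ((hasDerivAt_pow 17 t).div_const 1587890304000)).sub (hasDerivAt_fn t)
      refine h.congr_deriv ?_
      push_cast
      ring) (by simp [fn]) (fun t ht => mul_nonneg ht (by linarith [gn_le_S ht])) y hy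
  linarith

theorem abs_f_sub_TT {y : ℝ} (hy : 0 < y) : |f y - TT y| ≤ y ^ 13 / 1587890304000 := by
  have h4 : 0 < y ^ 4 := by positivity
  have h1 := fn_ge_S hy.le
  have h2 := fn_le_S hy.le
  have e : f y * y ^ 4 = fn y := by
    unfold f
    rw [div_mul_cancel₀ _ h4.ne']
  have e2 : TT y * y ^ 4 = y ^ 5 / 15 - y ^ 7 / 210 + y ^ 9 / 7560
    - y ^ 11 / 498960 + y ^ 13 / 51891840 - y ^ 15 / 7783776000 := by
    unfold TT
    ring
  have h3 : 0 ≤ f y - TT y := by
    have : 0 ≤ (f y - TT y) * y ^ 4 := by
      rw [sub_mul, e, e2]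
      linarith
    exact nonneg_of_mul_nonneg_left this h4
  rw [abs_of_nonneg h3]
  have h5 : (f y - TT y) * y ^ 4 ≤ (y ^ 13 / 1587890304000) * y ^ 4 := by
    rw [sub_mul, e, e2]
    have : (y ^ 13 / 1587890304000) * y ^ 4 = y ^ 17 / 1587890304000 := by ring
    rw [this]
    linarith
  exact le_of_mul_le_mul_right h5 h4

/-- `TT - W`. -/
noncomputable def DD (y : ℝ) : ℝ :=
  (-21949/18750000) * y ^ 1 + 
    (10101991/16800000000) * y ^ 3 + 
    (-6786649903/37800000000000) * y ^ 5 + 
    (5110001793709/155925000000000000) * y ^ 7 + 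
    (-57732025009471/16216200000000000000) * y ^ 9 + 
    (548354567467519/2432430000000000000000) * y ^ 11 + 
    (-31192773/4000000000000000) * y ^ 13 + 
    (6155919/50000000000000000) * y ^ 15 + 
    (-5589/12500000000000000) * y ^ 17

theorem TT_sub_W (y : ℝ) : TT y - W y = DD y := by
  unfold TT W DD lam H R1 Q1 P1 P H1
  ring

/-- The majorant. -/
noncomputable def GG (y : ℝ) : ℝ :=
  DD y ^ 2 * (125000 / 109) + 218 / 1000000 + y ^ 13 / 1587890304000

/-- Antiderivative of the majorant. -/
noncomputable def AA (y : ℝ) : ℝ :=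
  (109/500000) * y ^ 1 +
    (481758601/919687500000) * y ^ 3 +
    (-221728600459/686700000000000) * y ^ 5 +
    (248274820068559637/1938142080000000000000) * y ^ 7 +
    (-383299388206686082661/10279074960000000000000000) * y ^ 9 +
    (16342351521385065633827/1959876959040000000000000000) * y ^ 11 +
    (-362905642728875490276607/248166238320000000000000000000) * y ^ 13 +
    (1/22230464256000) * y ^ 14 +
    (9175469854567165292433133/45429840225000000000000000000000) * y ^ 15 +
    (-22754036625679892459027483/1041184634490000000000000000000000) * y ^ 17 +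
    (31555733140837665825950953661/17197920315576000000000000000000000000) * y ^ 19 +
    (-42620797939846799036733569509/361156326627096000000000000000000000000) * y ^ 21 +
    (677916885463443527848024600831/118665650177474400000000000000000000000000) * y ^ 23 +
    (-7170664701407945078189/35351316000000000000000000000000000) * y ^ 25 +
    (239250605186902685141/47135088000000000000000000000000000) * y ^ 27 +
    (-1061958261200825431/12656644000000000000000000000000000) * y ^ 29 +
    (55328979564261/67580000000000000000000000000000) * y ^ 31 +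
    (-1042588827/272500000000000000000000000000) * y ^ 33 +
    (31236921/4768750000000000000000000000000) * y ^ 35

theorem hasDerivAt_AA (y : ℝ) : HasDerivAt AA (GG y) y := by
  have h := ((((((((((((((((((((hasDerivAt_pow 1 y).const_mul ((109/500000) : ℝ)).add
    ((hasDerivAt_pow 3 y).const_mul ((481758601/919687500000) : ℝ))).add
    ((hasDerivAt_pow 5 y).const_mul ((-221728600459/686700000000000) : ℝ))).add
    ((hasDerivAt_pow 7 y).const_mul ((248274820068559637/1938142080000000000000) : ℝ))).add
    ((hasDerivAt_pow 9 y).const_mul ((-383299388206686082661/10279074960000000000000000) : ℝ))).add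
    ((hasDerivAt_pow 11 y).const_mul ((16342351521385065633827/1959876959040000000000000000) : ℝ))).add
    ((hasDerivAt_pow 13 y).const_mul ((-362905642728875490276607/248166238320000000000000000000) : ℝ))).add
    ((hasDerivAt_pow 14 y).const_mul ((1/22230464256000) : ℝ))).add
    ((hasDerivAt_pow 15 y).const_mul ((9175469854567165292433133/45429840225000000000000000000000) : ℝ))).add
    ((hasDerivAt_pow 17 y).const_mul ((-22754036625679892459027483/1041184634490000000000000000000000) : ℝ))).add
    ((hasDerivAt_pow 19 y).const_mul ((31555733140837665825950953661/17197920315576000000000000000000000000) : ℝ))).add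
    ((hasDerivAt_pow 21 y).const_mul ((-42620797939846799036733569509/361156326627096000000000000000000000000) : ℝ))).add
    ((hasDerivAt_pow 23 y).const_mul ((677916885463443527848024600831/118665650177474400000000000000000000000000) : ℝ))).add
    ((hasDerivAt_pow 25 y).const_mul ((-7170664701407945078189/35351316000000000000000000000000000) : ℝ))).add
    ((hasDerivAt_pow 27 y).const_mul ((239250605186902685141/47135088000000000000000000000000000) : ℝ))).add
    ((hasDerivAt_pow 29 y).const_mul ((-1061958261200825431/12656644000000000000000000000000000) : ℝ))).add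
    ((hasDerivAt_pow 31 y).const_mul ((55328979564261/67580000000000000000000000000000) : ℝ))).add
    ((hasDerivAt_pow 33 y).const_mul ((-1042588827/272500000000000000000000000000) : ℝ))).add
    ((hasDerivAt_pow 35 y).const_mul ((31236921/4768750000000000000000000000000) : ℝ)))
  refine h.congr_deriv ?_
  unfold GG DD
  push_cast
  ring

theorem continuous_GG : Continuous GG := by
  unfold GG DD
  fun_prop

theorem integral_GG : ∫ y in (0 : ℝ)..(9/2), GG y = AA (9/2) - AA 0 :=
  integral_eq_sub_of_hasDerivAt (fun y _ => hasDerivAt_AA y) (continuous_GG.intervalIntegrable _ _)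

theorem AA_val : AA (9/2) - AA 0 ≤ 21 / 10000 := by
  unfold AA
  norm_num

theorem abs_f_sub_W {y : ℝ} (hy : 0 < y) : |f y - W y| ≤ GG y := by
  have h1 := abs_f_sub_TT hy
  have h2 : |f y - W y| ≤ |f y - TT y| + |TT y - W y| := by
    have := abs_add_le (f y - TT y) (TT y - W y)
    have e : f y - TT y + (TT y - W y) = f y - W y := by ring
    rwa [e] at this
  have h3 : |TT y - W y| ≤ DD y ^ 2 * (125000 / 109) + 218 / 1000000 := by
    rw [TT_sub_W]
    have h4 : 0 ≤ (|DD y| - 436 / 1000000) ^ 2 := sq_nonneg _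
    have h5 : |DD y| ^ 2 = DD y ^ 2 := sq_abs _
    nlinarith
  unfold GG
  linarith

/-- Value `0.0020261`. -/
theorem close : ∫ y in (0 : ℝ)..(9/2), |f y - W y| ≤ 21 / 10000 := by
  refine le_trans ?_ AA_val
  rw [← integral_GG, intervalIntegral.integral_of_le (by norm_num), intervalIntegral.integral_of_le (by norm_num)]
  refine integral_mono_of_nonneg ?_ ?_ ?_
  · exact Filter.Eventually.of_forall fun y => abs_nonneg _
  · exact (continuous_GG.integrableOn_Icc (a := 0) (b := 9/2)).mono_set Ioc_subset_Icc_self
  · exact (ae_restrict_iff' measurableSet_Ioc).2 (Filter.Eventually.of_forall fun y hy => abs_f_sub_W hy.1)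

end SpecVar.D
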