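import Mathlib
import Pool.Agent.Lib.MP_29a676_an.D.Wt

/-!
# Exact integrals of the polynomial weights over `[0, 9/2]`
-/

set_option autoImplicit false

namespace SpecVar.D

open Set

private noncomputable def F_om (y : ℝ) : ℝ :=
  (752247/4000000 : ℝ) * y ^ 2 + (-1129721/80000000 : ℝ) * y ^ 4 + (130859/240000000 : ℝ) * y ^ 6 + (-8773/800000000 : ℝ) * y ^ 8 + (23/250000000 : ℝ) * y ^ 10

private lemma hasDerivAt_F_om (y : ℝ) : HasDerivAt F_om (om y) y := by
  have h := ((((((hasDerivAt_pow 2 y).const_mul (752247/4000000 : ℝ)).add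
      ((hasDerivAt_pow 4 y).const_mul (-1129721/80000000 : ℝ))).add
      ((hasDerivAt_pow 6 y).const_mul (130859/240000000 : ℝ))).add
      ((hasDerivAt_pow 8 y).const_mul (-8773/800000000 : ℝ))).add
      ((hasDerivAt_pow 10 y).const_mul (23/250000000 : ℝ)))
  refine h.congr_deriv ?_
  unfold om P
  norm_num
  ring

lemma integral_om : ∫ y in (0 : ℝ)..(9/2), om y = 1038764466027/1024000000000 := by
  rw [intervalIntegral.integral_eq_sub_of_hasDerivAt (fun y _ => hasDerivAt_F_om y)
    (Continuous.intervalIntegrable (by
      have := continuous_P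
      have := continuous_om
      have := continuous_lam
      have := continuous_H
      have := continuous_W
      fun_prop) _ _)]
  unfold F_om
  norm_num

private noncomputable def F_lam (y : ℝ) : ℝ :=
  (3104707/25000000 : ℝ) * y ^ 2 + (-932699347/80000000000 : ℝ) * y ^ 4 + (222625267/400000000000 : ℝ) * y ^ 6 + (-45126379/3200000000000 : ℝ) * y ^ 8 + (1704213/10000000000000 : ℝ) * y ^ 10 + (-621/1000000000000 : ℝ) * y ^ 12

private lemma hasDerivAt_F_lam (y : ℝ) : HasDerivAt F_lam (lam y) y := by
  have h := (((((((hasDerivAt_pow 2 y).const_mul (3104707/25000000 : ℝ)).add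
      ((hasDerivAt_pow 4 y).const_mul (-932699347/80000000000 : ℝ))).add
      ((hasDerivAt_pow 6 y).const_mul (222625267/400000000000 : ℝ))).add
      ((hasDerivAt_pow 8 y).const_mul (-45126379/3200000000000 : ℝ))).add
      ((hasDerivAt_pow 10 y).const_mul (1704213/10000000000000 : ℝ))).add
      ((hasDerivAt_pow 12 y).const_mul (-621/1000000000000 : ℝ)))
  refine h.congr_deriv ?_
  unfold lam Q1 P1 P
  norm_num
  ring

lemma integral_lam : ∫ y in (0 : ℝ)..(9/2), lam y = 5343004590441723/10240000000000000 := by
  rw [intervalIntegral.integral_eq_sub_of_hasDerivAt (fun y _ => hasDerivAt_F_lam y)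
    (Continuous.intervalIntegrable (by
      have := continuous_P
      have := continuous_om
      have := continuous_lam
      have := continuous_H
      have := continuous_W
      fun_prop) _ _)]
  unfold F_lam
  norm_num

private noncomputable def F_WH (y : ℝ) : ℝ :=
  (423983/12500000 : ℝ) * y ^ 2 + (-270073747/80000000000 : ℝ) * y ^ 4 + (1145346169/6000000000000 : ℝ) * y ^ 6 + (-4564075889/400000000000000 : ℝ) * y ^ 8 + (22368638779/25000000000000000 : ℝ) * y ^ 10 + (-16066166783/250000000000000000 : ℝ) * y ^ 12 + (58718426371/17500000000000000000 : ℝ) * y ^ 14 + (-95262195827/800000000000000000000 : ℝ) * y ^ 16 + (8431677983/3000000000000000000000 : ℝ) * y ^ 18 + (-866277459/20000000000000000000000 : ℝ) * y ^ 20 + (21597597/55000000000000000000000 : ℝ) * y ^ 22 + (-5589/5000000000000000000000 : ℝ) * y ^ 24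

private lemma hasDerivAt_F_WH (y : ℝ) : HasDerivAt F_WH (W y * H y) y := by
  have h := (((((((((((((hasDerivAt_pow 2 y).const_mul (423983/12500000 : ℝ)).add
      ((hasDerivAt_pow 4 y).const_mul (-270073747/80000000000 : ℝ))).add
      ((hasDerivAt_pow 6 y).const_mul (1145346169/6000000000000 : ℝ))).add
      ((hasDerivAt_pow 8 y).const_mul (-4564075889/400000000000000 : ℝ))).add
      ((hasDerivAt_pow 10 y).const_mul (22368638779/25000000000000000 : ℝ))).add
      ((hasDerivAt_pow 12 y).const_mul (-16066166783/250000000000000000 : ℝ))).add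
      ((hasDerivAt_pow 14 y).const_mul (58718426371/17500000000000000000 : ℝ))).add
      ((hasDerivAt_pow 16 y).const_mul (-95262195827/800000000000000000000 : ℝ))).add
      ((hasDerivAt_pow 18 y).const_mul (8431677983/3000000000000000000000 : ℝ))).add
      ((hasDerivAt_pow 20 y).const_mul (-866277459/20000000000000000000000 : ℝ))).add
      ((hasDerivAt_pow 22 y).const_mul (21597597/55000000000000000000000 : ℝ))).add
      ((hasDerivAt_pow 24 y).const_mul (-5589/5000000000000000000000 : ℝ)))
  refine h.congr_deriv ?_
  unfold W lam R1 Q1 P1 H1 H P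
  norm_num
  ring

lemma integral_WH : ∫ y in (0 : ℝ)..(9/2), W y * H y = tau := by
  rw [intervalIntegral.integral_eq_sub_of_hasDerivAt (fun y _ => hasDerivAt_F_WH y)
    (Continuous.intervalIntegrable (by
      have := continuous_P
      have := continuous_om
      have := continuous_lam
      have := continuous_H
      have := continuous_W
      fun_prop) _ _)]
  unfold F_WH tau
  norm_num

end SpecVar.D
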