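import Mathlib
import Pool.Agent.Lib.MP_29a676_an.D.Pos

/-!
# Energy inequality on `[0, 2]`
-/

set_option autoImplicit false

namespace SpecVar.D

open Set MeasureTheory intervalIntegral
open scoped RealInnerProductSpace

variable {E : Type*} [NormedAddCommGroup E] [InnerProductSpace ℝ E]

/-- `om * k' / k` for `k = 1 - y ^ 2 / 5`. -/
noncomputable def enaC (y : ℝ) : ℝ := -2 * (y ^ 2 * P y) / (5 - y ^ 2)

/-- derivative of `enaC` -/
noncomputable def enaC1 (y : ℝ) : ℝ :=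
  (-2 * (2 * y * P y + y ^ 2 * P1 y) * (5 - y ^ 2) - -2 * (y ^ 2 * P y) * (-(2 * y))) / (5 - y ^ 2) ^ 2

lemma ena_pos {y : ℝ} (h0 : 0 ≤ y) (h1 : y ≤ 2) : 0 < 5 - y ^ 2 := by nlinarith

lemma ena_hasDerivAt {y : ℝ} (h0 : 0 ≤ y) (h1 : y ≤ 2) : HasDerivAt enaC (enaC1 y) y := by
  have hD : HasDerivAt (fun y : ℝ => 5 - y ^ 2) (-(2 * y)) y := by
    have h := (hasDerivAt_pow 2 y).const_sub 5
    refine h.congr_deriv ?_
    norm_num
  have hN : HasDerivAt (fun y : ℝ => -2 * (y ^ 2 * P y)) (-2 * (2 * y * P y + y ^ 2 * P1 y)) y := by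
    have h := ((hasDerivAt_pow 2 y).mul (hasDerivAt_P y)).const_mul (-2)
    refine h.congr_deriv ?_
    norm_num
  exact hN.div hD (ena_pos h0 h1).ne'

lemma ena_cont : ContinuousOn enaC (Icc 0 2) := by
  unfold enaC
  have h1 := continuous_P
  refine ContinuousOn.div ?_ ?_ fun y hy => (ena_pos hy.1 hy.2).ne'
  · exact (by fun_prop : Continuous fun y : ℝ => -2 * (y ^ 2 * P y)).continuousOn
  · exact (by fun_prop : Continuous fun y : ℝ => 5 - y ^ 2).continuousOn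

lemma ena_cont1 : ContinuousOn enaC1 (Icc 0 2) := by
  unfold enaC1
  have h1 := continuous_P
  have h2 := continuous_P1
  refine ContinuousOn.div ?_ ?_ fun y hy => (pow_pos (ena_pos hy.1 hy.2) 2).ne'
  · exact (by fun_prop : Continuous fun y : ℝ =>
      -2 * (2 * y * P y + y ^ 2 * P1 y) * (5 - y ^ 2) - -2 * (y ^ 2 * P y) * (-(2 * y))).continuousOn
  · exact (by fun_prop : Continuous fun y : ℝ => (5 - y ^ 2) ^ 2).continuousOn

lemma ena_coef {y : ℝ} (h0 : 0 ≤ y) (h1 : y ≤ 2) :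
    lam y + enaC1 y + 4 * (y ^ 3 * P y) / (5 - y ^ 2) ^ 2 ≤ 0 := by
  have hD := ena_pos h0 h1
  have hs := super_a h0 h1
  have key : lam y + enaC1 y + 4 * (y ^ 3 * P y) / (5 - y ^ 2) ^ 2 =
      (5 / (5 - y ^ 2)) *
        (-(4/5) * (y * P y) - 2/5 * (y ^ 2 * P1 y) + lam y * (1 - y ^ 2 / 5)) := by
    unfold enaC1
    have h1 : (5 - y ^ 2) ≠ 0 := hD.ne'
    field_simp
    ring
  rw [key]
  exact mul_nonpos_of_nonneg_of_nonpos (by positivity) hs

lemma ena_pointwise (u v : E) {y : ℝ} (h0 : 0 ≤ y) (h1 : y ≤ 2) :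
    enaC1 y * ‖u‖ ^ 2 + enaC y * (2 * ⟪u, v⟫) ≤ om y * ‖v‖ ^ 2 - lam y * ‖u‖ ^ 2 := by
  have hD := ena_pos h0 h1
  have hy2 : y ≤ 9/2 := by linarith
  set ρ : ℝ := -2 * y / (5 - y ^ 2) with hρ
  have hsq : ‖v - ρ • u‖ ^ 2 = ‖v‖ ^ 2 - 2 * ρ * ⟪u, v⟫ + ρ ^ 2 * ‖u‖ ^ 2 := by
    rw [norm_sub_sq_real, real_inner_smul_right, norm_smul, mul_pow, Real.norm_eq_abs, sq_abs,
      real_inner_comm]
    ring
  have h2 : 0 ≤ om y * ‖v - ρ • u‖ ^ 2 := mul_nonneg (om_nonneg h0 hy2) (sq_nonneg _)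
  rw [hsq] at h2
  have h3 : om y * ρ = enaC y := by
    rw [hρ, om, enaC]
    have h1 : (5 - y ^ 2) ≠ 0 := hD.ne'
    field_simp
  have h4 : om y * ρ ^ 2 = 4 * (y ^ 3 * P y) / (5 - y ^ 2) ^ 2 := by
    rw [hρ, om]
    have h1 : (5 - y ^ 2) ≠ 0 := hD.ne'
    field_simp
    ring
  have h5 := mul_nonneg (neg_nonneg.2 (ena_coef h0 h1)) (sq_nonneg ‖u‖)
  rw [← h4] at h5
  have h6 : enaC y * (2 * ⟪u, v⟫) = om y * (2 * ρ * ⟪u, v⟫) := by
    rw [← h3]
    ring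
  rw [h6]
  nlinarith

/-- Energy inequality on `[0, 2]`; supersolution `k = 1 - y ^ 2 / 5` (`super_a`). -/
theorem energy_a {g g' : ℝ → E} (hg : ∀ y, HasDerivAt g (g' y) y) (hc : Continuous g')
    (h2 : g 2 = 0) :
    0 ≤ ∫ y in (0 : ℝ)..2, (om y * ‖g' y‖ ^ 2 - lam y * ‖g y‖ ^ 2) := by
  have hgc : Continuous g := continuous_iff_continuousAt.2 fun y => (hg y).continuousAt
  have hle : (0 : ℝ) ≤ 2 := by norm_num
  have hcont : Continuous fun y => om y * ‖g' y‖ ^ 2 - lam y * ‖g y‖ ^ 2 := by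
    have := continuous_om
    have := continuous_lam
    fun_prop
  have hGc : ContinuousOn (fun y => enaC1 y * ‖g y‖ ^ 2 + enaC y * (2 * ⟪g y, g' y⟫))
      (Icc 0 2) := by
    refine ContinuousOn.add ?_ ?_
    · exact ena_cont1.mul (hgc.norm.pow 2).continuousOn
    · exact ena_cont.mul (continuous_const.mul (hgc.inner hc)).continuousOn
  have hGi : IntervalIntegrable (fun y => enaC1 y * ‖g y‖ ^ 2 + enaC y * (2 * ⟪g y, g' y⟫))
      volume 0 2 := by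
    refine ContinuousOn.intervalIntegrable ?_
    rw [uIcc_of_le hle]
    exact hGc
  have hG : ∫ y in (0 : ℝ)..2, (enaC1 y * ‖g y‖ ^ 2 + enaC y * (2 * ⟪g y, g' y⟫)) = 0 := by
    rw [intervalIntegral.integral_eq_sub_of_hasDerivAt (f := fun y => enaC y * ‖g y‖ ^ 2)
      (fun y hy => ?_) hGi]
    · simp only [h2, norm_zero, enaC]
      norm_num
    · rw [uIcc_of_le hle] at hy
      exact (ena_hasDerivAt hy.1 hy.2).mul (hg y).norm_sq
  have hm := intervalIntegral.integral_mono_on hle hGi (hcont.intervalIntegrable _ _)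
    fun y hy => ena_pointwise (g y) (g' y) hy.1 hy.2
  rw [hG] at hm
  exact hm

end SpecVar.D
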