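import Mathlib
import Pool.Agent.Lib.MP_29a676_an.D.Pos

/-!
# Energy inequality on `[2, 9 / 2]`
-/

set_option autoImplicit false

namespace SpecVar.D

open Set MeasureTheory intervalIntegral
open scoped RealInnerProductSpace

variable {E : Type*} [NormedAddCommGroup E] [InnerProductSpace ℝ E]

/-- `om * k' / k` for `k = 1 - 5 / (2 * y ^ 2)`. -/
noncomputable def enbC (y : ℝ) : ℝ := 10 * P y / (2 * y ^ 2 - 5)

/-- derivative of `enbC` -/
noncomputable def enbC1 (y : ℝ) : ℝ :=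
  (10 * P1 y * (2 * y ^ 2 - 5) - 10 * P y * (4 * y)) / (2 * y ^ 2 - 5) ^ 2

lemma enb_pos {y : ℝ} (h0 : 2 ≤ y) : 0 < 2 * y ^ 2 - 5 := by nlinarith

lemma enb_hasDerivAt {y : ℝ} (h0 : 2 ≤ y) : HasDerivAt enbC (enbC1 y) y := by
  have hD : HasDerivAt (fun y : ℝ => 2 * y ^ 2 - 5) (4 * y) y := by
    have h := ((hasDerivAt_pow 2 y).const_mul (2 : ℝ)).sub_const 5
    refine h.congr_deriv ?_
    norm_num
    ring
  have hN : HasDerivAt (fun y : ℝ => 10 * P y) (10 * P1 y) y := (hasDerivAt_P y).const_mul 10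
  exact hN.div hD (enb_pos h0).ne'

lemma enb_cont : ContinuousOn enbC (Icc 2 (9/2)) := by
  unfold enbC
  refine ContinuousOn.div ?_ ?_ fun y hy => (enb_pos hy.1).ne'
  · exact (continuous_const.mul continuous_P).continuousOn
  · exact (by fun_prop : Continuous fun y : ℝ => 2 * y ^ 2 - 5).continuousOn

lemma enb_cont1 : ContinuousOn enbC1 (Icc 2 (9/2)) := by
  unfold enbC1
  have h1 := continuous_P
  have h2 := continuous_P1
  refine ContinuousOn.div ?_ ?_ fun y hy => (pow_pos (enb_pos hy.1) 2).ne'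
  · exact (by fun_prop :
      Continuous fun y : ℝ => 10 * P1 y * (2 * y ^ 2 - 5) - 10 * P y * (4 * y)).continuousOn
  · exact (by fun_prop : Continuous fun y : ℝ => (2 * y ^ 2 - 5) ^ 2).continuousOn

lemma enb_coef {y : ℝ} (h0 : 2 ≤ y) (h1 : y ≤ 9/2) :
    lam y + enbC1 y + 100 * P y / (y * (2 * y ^ 2 - 5) ^ 2) ≤ 0 := by
  have hD := enb_pos h0
  have hy : 0 < y := by linarith
  have hs := super_b h0 h1
  have key : lam y + enbC1 y + 100 * P y / (y * (2 * y ^ 2 - 5) ^ 2) =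
      (2 / (y ^ 2 * (2 * y ^ 2 - 5))) *
        (5 * P1 y * y ^ 2 - 10 * P y * y + lam y * (y ^ 4 - 5/2 * y ^ 2)) := by
    unfold enbC1
    have h1 : (2 * y ^ 2 - 5) ≠ 0 := hD.ne'
    have h2 : y ≠ 0 := hy.ne'
    field_simp
    ring
  rw [key]
  exact mul_nonpos_of_nonneg_of_nonpos (by positivity) hs

lemma enb_pointwise (u v : E) {y : ℝ} (h0 : 2 ≤ y) (h1 : y ≤ 9/2) :
    enbC1 y * ‖u‖ ^ 2 + enbC y * (2 * ⟪u, v⟫) ≤ om y * ‖v‖ ^ 2 - lam y * ‖u‖ ^ 2 := by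
  have hD := enb_pos h0
  have hy : 0 < y := by linarith
  have hP := P_nonneg hy.le h1
  set ρ : ℝ := 10 / (y * (2 * y ^ 2 - 5)) with hρ
  have hsq : ‖v - ρ • u‖ ^ 2 = ‖v‖ ^ 2 - 2 * ρ * ⟪u, v⟫ + ρ ^ 2 * ‖u‖ ^ 2 := by
    rw [norm_sub_sq_real, real_inner_smul_right, norm_smul, mul_pow, Real.norm_eq_abs, sq_abs,
      real_inner_comm]
    ring
  have h2 : 0 ≤ om y * ‖v - ρ • u‖ ^ 2 := mul_nonneg (om_nonneg hy.le h1) (sq_nonneg _)
  rw [hsq] at h2
  have h3 : om y * ρ = enbC y := by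
    rw [hρ, om, enbC]
    have h1 : (2 * y ^ 2 - 5) ≠ 0 := hD.ne'
    field_simp
  have h4 : om y * ρ ^ 2 = 100 * P y / (y * (2 * y ^ 2 - 5) ^ 2) := by
    rw [hρ, om]
    have h1 : (2 * y ^ 2 - 5) ≠ 0 := hD.ne'
    field_simp
    ring
  have h5 := mul_nonneg (neg_nonneg.2 (enb_coef h0 h1)) (sq_nonneg ‖u‖)
  rw [← h4] at h5
  have h6 : enbC y * (2 * ⟪u, v⟫) = om y * (2 * ρ * ⟪u, v⟫) := by
    rw [← h3]
    ring
  rw [h6]
  nlinarith

/-- Energy inequality on `[2, 9 / 2]`; supersolution `k = 1 - 5 / (2 * y ^ 2)` (`super_b`). -/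
theorem energy_b {g g' : ℝ → E} (hg : ∀ y, HasDerivAt g (g' y) y) (hc : Continuous g')
    (h2 : g 2 = 0) :
    0 ≤ ∫ y in (2 : ℝ)..(9/2), (om y * ‖g' y‖ ^ 2 - lam y * ‖g y‖ ^ 2) := by
  have hgc : Continuous g := continuous_iff_continuousAt.2 fun y => (hg y).continuousAt
  have hle : (2 : ℝ) ≤ 9/2 := by norm_num
  have hcont : Continuous fun y => om y * ‖g' y‖ ^ 2 - lam y * ‖g y‖ ^ 2 := by
    have := continuous_om
    have := continuous_lam
    fun_prop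
  have hGc : ContinuousOn (fun y => enbC1 y * ‖g y‖ ^ 2 + enbC y * (2 * ⟪g y, g' y⟫))
      (Icc 2 (9/2)) := by
    refine ContinuousOn.add ?_ ?_
    · exact enb_cont1.mul (hgc.norm.pow 2).continuousOn
    · exact enb_cont.mul (continuous_const.mul (hgc.inner hc)).continuousOn
  have hGi : IntervalIntegrable (fun y => enbC1 y * ‖g y‖ ^ 2 + enbC y * (2 * ⟪g y, g' y⟫))
      volume 2 (9/2) := by
    refine ContinuousOn.intervalIntegrable ?_
    rw [uIcc_of_le hle]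
    exact hGc
  have hG : ∫ y in (2 : ℝ)..(9/2), (enbC1 y * ‖g y‖ ^ 2 + enbC y * (2 * ⟪g y, g' y⟫)) = 0 := by
    rw [intervalIntegral.integral_eq_sub_of_hasDerivAt (f := fun y => enbC y * ‖g y‖ ^ 2)
      (fun y hy => ?_) hGi]
    · rw [h2, norm_zero, enbC, P_end]
      ring
    · rw [uIcc_of_le hle] at hy
      exact (enb_hasDerivAt hy.1).mul (hg y).norm_sq
  rw [← hG]
  exact intervalIntegral.integral_mono_on hle hGi (hcont.intervalIntegrable _ _)
    fun y hy => enb_pointwise (g y) (g' y) hy.1 hy.2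

end SpecVar.D
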