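import Mathlib
import Pool.Agent.Lib.MP_29a676_an.D.EnA
import Pool.Agent.Lib.MP_29a676_an.D.EnB

/-!
# The Poincare type inequality for the weights
-/

set_option autoImplicit false

namespace SpecVar.D

open Set MeasureTheory intervalIntegral
open scoped RealInnerProductSpace

variable {E : Type*} [NormedAddCommGroup E] [InnerProductSpace ℝ E]

theorem energy {g g' : ℝ → E} (hg : ∀ y, HasDerivAt g (g' y) y) (hc : Continuous g')
    (h2 : g 2 = 0) :
    0 ≤ ∫ y in (0 : ℝ)..(9/2), (om y * ‖g' y‖ ^ 2 - lam y * ‖g y‖ ^ 2) := by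
  have hgc : Continuous g := continuous_iff_continuousAt.2 fun y => (hg y).continuousAt
  have h : Continuous fun y => om y * ‖g' y‖ ^ 2 - lam y * ‖g y‖ ^ 2 := by
    have := continuous_om
    have := continuous_lam
    fun_prop
  rw [← intervalIntegral.integral_add_adjacent_intervals (h.intervalIntegrable 0 2)
    (h.intervalIntegrable 2 (9/2))]
  exact add_nonneg (energy_a hg hc h2) (energy_b hg hc h2)

end SpecVar.D
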