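import Mathlib
import Pool.Agent.Lib.MP_29a676_an.D.Energy
import Pool.Agent.Lib.MP_29a676_an.D.Int

/-!
# Integration by parts and the inequality for the mean
-/

set_option autoImplicit false

namespace SpecVar.D

open Set MeasureTheory intervalIntegral
open scoped RealInnerProductSpace

variable {E : Type*} [NormedAddCommGroup E] [InnerProductSpace ℝ E]

theorem parts_g {g g' : ℝ → E} (hg : ∀ y, HasDerivAt g (g' y) y) (hc : Continuous g') (μ : E) :
    ∫ y in (0 : ℝ)..(9/2), (om y * H1 y * ⟪g' y, μ⟫ - lam y * H y * ⟪g y, μ⟫) =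
      - ∫ y in (0 : ℝ)..(9/2), W y * ⟪g y, μ⟫ := by
  have hgc : Continuous g := continuous_iff_continuousAt.2 fun y => (hg y).continuousAt
  have hd : ∀ y, HasDerivAt (fun y => R y * ⟪g y, μ⟫) (R1 y * ⟪g y, μ⟫ + R y * ⟪g' y, μ⟫) y := by
    intro y
    have h1 : HasDerivAt (fun y => ⟪g y, μ⟫) (⟪g' y, μ⟫) y := by
      have h2 := (hg y).inner ℝ (hasDerivAt_const y μ)
      simpa using h2
    exact (hasDerivAt_R y).mul h1
  have hR := continuous_R
  have hR1 := continuous_R1
  have hW := continuous_W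
  have hom := continuous_om
  have hlam := continuous_lam
  have hH := continuous_H
  have hH1 := continuous_H1
  have hcont : Continuous fun y => R1 y * ⟪g y, μ⟫ + R y * ⟪g' y, μ⟫ := by fun_prop
  have hI := integral_eq_sub_of_hasDerivAt (a := (0 : ℝ)) (b := 9/2) (fun y _ => hd y)
    (hcont.intervalIntegrable _ _)
  rw [R_zero, R_end, zero_mul, zero_mul, sub_zero] at hI
  have hc1 : Continuous fun y => om y * H1 y * ⟪g' y, μ⟫ - lam y * H y * ⟪g y, μ⟫ := by fun_prop
  have hc2 : Continuous fun y => W y * ⟪g y, μ⟫ := by fun_prop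
  rw [eq_neg_iff_add_eq_zero, ← integral_add (hc1.intervalIntegrable _ _) (hc2.intervalIntegrable _ _), ← hI]
  congr 1
  funext y
  unfold W R
  ring

theorem parts_H : ∫ y in (0 : ℝ)..(9/2), (om y * H1 y ^ 2 - lam y * H y ^ 2) = -tau := by
  have hd : ∀ y, HasDerivAt (fun y => R y * H y) (R1 y * H y + R y * H1 y) y := by
    intro y
    exact (hasDerivAt_R y).mul (hasDerivAt_H y)
  have hR := continuous_R
  have hR1 := continuous_R1
  have hW := continuous_W
  have hom := continuous_om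
  have hlam := continuous_lam
  have hH := continuous_H
  have hH1 := continuous_H1
  have hcont : Continuous fun y => R1 y * H y + R y * H1 y := by fun_prop
  have hI := integral_eq_sub_of_hasDerivAt (a := (0 : ℝ)) (b := 9/2) (fun y _ => hd y)
    (hcont.intervalIntegrable _ _)
  rw [R_zero, R_end, zero_mul, zero_mul, sub_zero] at hI
  have hc1 : Continuous fun y => om y * H1 y ^ 2 - lam y * H y ^ 2 := by fun_prop
  have hc2 : Continuous fun y => W y * H y := by fun_prop
  rw [← integral_WH, eq_neg_iff_add_eq_zero,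
    ← integral_add (hc1.intervalIntegrable _ _) (hc2.intervalIntegrable _ _), ← hI]
  congr 1
  funext y
  unfold W R
  ring

theorem MP_H2 : H 2 ≠ 0 := by
  unfold H
  norm_num

theorem MP_tau_pos : 0 < tau := by
  unfold tau
  norm_num

theorem mpart [CompleteSpace E] {M M' : ℝ → E} (hM : ∀ y, HasDerivAt M (M' y) y)
    (hc : Continuous M') :
    ∫ y in (0 : ℝ)..(9/2), (lam y * ‖M y‖ ^ 2 - om y * ‖M' y‖ ^ 2) ≤
      (1 / tau) * ‖∫ y in (0 : ℝ)..(9/2), W y • M y‖ ^ 2 := by
  have hR := continuous_R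
  have hR1 := continuous_R1
  have hW := continuous_W
  have hom := continuous_om
  have hlam := continuous_lam
  have hH := continuous_H
  have hH1 := continuous_H1
  have hMc : Continuous M := continuous_iff_continuousAt.2 fun y => (hM y).continuousAt
  obtain ⟨μ, hμ⟩ : ∃ μ : E, μ = (H 2)⁻¹ • M 2 := ⟨_, rfl⟩
  obtain ⟨g, hgdef⟩ : ∃ g : ℝ → E, g = fun y => M y - H y • μ := ⟨_, rfl⟩
  obtain ⟨g', hg'def⟩ : ∃ g' : ℝ → E, g' = fun y => M' y - H1 y • μ := ⟨_, rfl⟩
  have hg : ∀ y, HasDerivAt g (g' y) y := by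
    intro y
    rw [hgdef, hg'def]
    exact (hM y).sub ((hasDerivAt_H y).smul_const μ)
  have hg'c : Continuous g' := by
    rw [hg'def]; fun_prop
  have hgc : Continuous g := by
    rw [hgdef]; fun_prop
  have hg2 : g 2 = 0 := by
    rw [hgdef]
    simp only
    rw [hμ, smul_smul, mul_inv_cancel₀ MP_H2, one_smul, sub_self]
  have hE := energy hg hg'c hg2
  have hP := parts_g hg hg'c μ
  have hPH := parts_H
  have hMg : ∀ y, M y = g y + H y • μ := by
    intro y; rw [hgdef]; simp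
  have hM'g : ∀ y, M' y = g' y + H1 y • μ := by
    intro y; rw [hg'def]; simp
  -- the vector integral
  have hV : ∫ y in (0 : ℝ)..(9/2), W y • M y = (∫ y in (0 : ℝ)..(9/2), W y • g y) + tau • μ := by
    have e1 : (fun y => W y • M y) = fun y => W y • g y + (W y * H y) • μ := by
      funext y
      rw [hMg y, smul_add, smul_smul]
    have hc1 : Continuous fun y => W y • g y := by fun_prop
    have hc2 : Continuous fun y => (W y * H y) • μ := by fun_prop
    rw [e1, integral_add (hc1.intervalIntegrable _ _) (hc2.intervalIntegrable _ _),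
      intervalIntegral.integral_smul_const, integral_WH]
  have hin : ⟪∫ y in (0 : ℝ)..(9/2), W y • g y, μ⟫ = ∫ y in (0 : ℝ)..(9/2), W y * ⟪g y, μ⟫ := by
    have hc1 : Continuous fun y => W y • g y := by fun_prop
    have h1 := (innerSL ℝ μ).intervalIntegral_comp_comm (μ := volume)
      (hc1.intervalIntegrable (0 : ℝ) (9/2))
    rw [real_inner_comm]
    simp only [innerSL_apply_apply] at h1
    rw [← h1]
    congr 1
    funext y
    rw [real_inner_smul_right, real_inner_comm]
  -- the scalar integral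
  have hS : ∫ y in (0 : ℝ)..(9/2), (om y * ‖M' y‖ ^ 2 - lam y * ‖M y‖ ^ 2) =
      (∫ y in (0 : ℝ)..(9/2), (om y * ‖g' y‖ ^ 2 - lam y * ‖g y‖ ^ 2)) +
      2 * (∫ y in (0 : ℝ)..(9/2), (om y * H1 y * ⟪g' y, μ⟫ - lam y * H y * ⟪g y, μ⟫)) +
      ‖μ‖ ^ 2 * (∫ y in (0 : ℝ)..(9/2), (om y * H1 y ^ 2 - lam y * H y ^ 2)) := by
    have hc1 : Continuous fun y => om y * ‖g' y‖ ^ 2 - lam y * ‖g y‖ ^ 2 := by fun_prop
    have hc2 : Continuous fun y => 2 * (om y * H1 y * ⟪g' y, μ⟫ - lam y * H y * ⟪g y, μ⟫) := by fun_prop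
    have hc3 : Continuous fun y => ‖μ‖ ^ 2 * (om y * H1 y ^ 2 - lam y * H y ^ 2) := by fun_prop
    have hc12 : Continuous fun y => (om y * ‖g' y‖ ^ 2 - lam y * ‖g y‖ ^ 2) +
      2 * (om y * H1 y * ⟪g' y, μ⟫ - lam y * H y * ⟪g y, μ⟫) := by fun_prop
    rw [← intervalIntegral.integral_const_mul, ← intervalIntegral.integral_const_mul,
      ← integral_add (hc1.intervalIntegrable _ _) (hc2.intervalIntegrable _ _),
      ← integral_add (hc12.intervalIntegrable _ _) (hc3.intervalIntegrable _ _)]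
    congr 1
    funext y
    rw [hMg y, hM'g y, norm_add_sq_real, norm_add_sq_real, real_inner_smul_right,
      real_inner_smul_right, norm_smul, norm_smul, mul_pow, mul_pow, Real.norm_eq_abs,
      Real.norm_eq_abs, sq_abs, sq_abs]
    ring
  have hneg : ∫ y in (0 : ℝ)..(9/2), (lam y * ‖M y‖ ^ 2 - om y * ‖M' y‖ ^ 2) =
      - ∫ y in (0 : ℝ)..(9/2), (om y * ‖M' y‖ ^ 2 - lam y * ‖M y‖ ^ 2) := by
    rw [← intervalIntegral.integral_neg]
    congr 1
    funext y
    ring
  rw [hneg, hS, hP, hPH, hV, norm_add_sq_real, real_inner_smul_right, norm_smul, hin]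
  have ht := MP_tau_pos
  rw [Real.norm_eq_abs, abs_of_pos ht]
  have hG : 0 ≤ ‖∫ y in (0 : ℝ)..(9/2), W y • g y‖ ^ 2 := sq_nonneg _
  generalize (∫ y in (0 : ℝ)..(9/2), W y * ⟪g y, μ⟫) = a at *
  generalize ‖∫ y in (0 : ℝ)..(9/2), W y • g y‖ ^ 2 = b at *
  generalize (∫ y in (0 : ℝ)..(9/2), (om y * ‖g' y‖ ^ 2 - lam y * ‖g y‖ ^ 2)) = d at *
  generalize ‖μ‖ = m at *
  have e : 1 / tau * (b + 2 * (tau * a) + (tau * m) ^ 2) = b / tau + 2 * a + tau * m ^ 2 := by
    field_simp
  rw [e]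
  have hb : 0 ≤ b / tau := div_nonneg hG ht.le
  nlinarith

end SpecVar.D
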