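import Mathlib
import Pool.Agent.Lib.MP_29a676_an.D.MP
import Pool.Agent.Lib.MP_29a676_an.D.Int

/-!
# The front part
-/

set_option autoImplicit false

namespace SpecVar.D

open Set MeasureTheory intervalIntegral
open scoped RealInnerProductSpace

variable {E : Type*} [NormedAddCommGroup E] [InnerProductSpace ℝ E]

theorem front [CompleteSpace E] {M M' : ℝ → E} (hM : ∀ y, HasDerivAt M (M' y) y)
    (hc : Continuous M') (h0 : ‖M 0‖ = 1)
    (hs : ∀ y κ : ℝ, 0 < y → ‖M' y‖ ^ 2 - 2 * κ * ⟪M y, M' y⟫ +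
      (1 / y ^ 2 - κ ^ 2) * (1 - ‖M y‖ ^ 2) ≤ 400 / 961) :
    97 / 1000 ≤ ‖∫ y in (0 : ℝ)..(9/2), W y • M y‖ := by
  have hMc : Continuous M := continuous_iff_continuousAt.2 fun y => (hM y).continuousAt
  have hom := continuous_om
  have hlam := continuous_lam
  have hQ := continuous_Q
  have hQ1 := continuous_Q1
  have hP := continuous_P
  have hinner : Continuous fun y => ⟪M y, M' y⟫ := hMc.inner hc
  -- the derivative of Q * D
  have hD : ∀ y, HasDerivAt (fun y => Q y * (1 - ‖M y‖ ^ 2))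
      (Q1 y * (1 - ‖M y‖ ^ 2) + Q y * (-(2 * ⟪M y, M' y⟫))) y := by
    intro y
    have h1 : HasDerivAt (fun y => ‖M y‖ ^ 2) (2 * ⟪M y, M' y⟫) y := (hM y).norm_sq
    have h2 : HasDerivAt (fun y => 1 - ‖M y‖ ^ 2) (-(2 * ⟪M y, M' y⟫)) y := by
      have := (hasDerivAt_const y (1 : ℝ)).sub h1
      refine this.congr_deriv ?_
      ring
    exact (hasDerivAt_Q y).mul h2
  have hcD : Continuous fun y => Q1 y * (1 - ‖M y‖ ^ 2) + Q y * (-(2 * ⟪M y, M' y⟫)) := by
    fun_prop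
  have hint : ∫ y in (0 : ℝ)..(9/2), (Q1 y * (1 - ‖M y‖ ^ 2) + Q y * (-(2 * ⟪M y, M' y⟫))) = 0 := by
    rw [intervalIntegral.integral_eq_sub_of_hasDerivAt (fun y _ => hD y) (hcD.intervalIntegrable _ _)]
    simp only [Q_end, h0]
    norm_num
  -- the pointwise inequality
  have hpt : ∀ y ∈ Ioo (0 : ℝ) (9/2), om y * ‖M' y‖ ^ 2
      + (Q1 y * (1 - ‖M y‖ ^ 2) + Q y * (-(2 * ⟪M y, M' y⟫))) + lam y * (1 - ‖M y‖ ^ 2)
      ≤ 400 / 961 * om y := by
    intro y hy
    have hy0 : y ≠ 0 := ne_of_gt hy.1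
    have h1 := hs y (1 / y - 9 / 100 * y) hy.1
    have h2 : 0 ≤ om y := om_nonneg hy.1.le hy.2.le
    have h3 := mul_le_mul_of_nonneg_left h1 h2
    have e1 : om y * (1 / y - 9 / 100 * y) = Q y := by
      unfold om Q
      field_simp
    have e2 : om y * (1 / y ^ 2 - (1 / y - 9 / 100 * y) ^ 2) = y * P y * (9/50 - 81/10000 * y ^ 2) := by
      unfold om
      field_simp
      ring
    have e3 : om y * (‖M' y‖ ^ 2 - 2 * (1 / y - 9 / 100 * y) * ⟪M y, M' y⟫ +
        (1 / y ^ 2 - (1 / y - 9 / 100 * y) ^ 2) * (1 - ‖M y‖ ^ 2))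
        = om y * ‖M' y‖ ^ 2 - 2 * (om y * (1 / y - 9 / 100 * y)) * ⟪M y, M' y⟫ +
          (om y * (1 / y ^ 2 - (1 / y - 9 / 100 * y) ^ 2)) * (1 - ‖M y‖ ^ 2) := by ring
    rw [e3, e1, e2] at h3
    unfold lam
    linarith [h3]
  -- integrate
  have hmono : ∫ y in (0 : ℝ)..(9/2), (om y * ‖M' y‖ ^ 2
      + (Q1 y * (1 - ‖M y‖ ^ 2) + Q y * (-(2 * ⟪M y, M' y⟫))) + lam y * (1 - ‖M y‖ ^ 2))
      ≤ ∫ y in (0 : ℝ)..(9/2), 400 / 961 * om y := by
    apply intervalIntegral.integral_mono_on_of_le_Ioo (by norm_num)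
    · apply Continuous.intervalIntegrable
      fun_prop
    · apply Continuous.intervalIntegrable
      fun_prop
    · exact hpt
  have hsplit : ∫ y in (0 : ℝ)..(9/2), (om y * ‖M' y‖ ^ 2
      + (Q1 y * (1 - ‖M y‖ ^ 2) + Q y * (-(2 * ⟪M y, M' y⟫))) + lam y * (1 - ‖M y‖ ^ 2))
      = (∫ y in (0 : ℝ)..(9/2), lam y) - ∫ y in (0 : ℝ)..(9/2), (lam y * ‖M y‖ ^ 2 - om y * ‖M' y‖ ^ 2) := by
    have e : ∀ y, om y * ‖M' y‖ ^ 2
      + (Q1 y * (1 - ‖M y‖ ^ 2) + Q y * (-(2 * ⟪M y, M' y⟫))) + lam y * (1 - ‖M y‖ ^ 2)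
      = (lam y - (lam y * ‖M y‖ ^ 2 - om y * ‖M' y‖ ^ 2))
        + (Q1 y * (1 - ‖M y‖ ^ 2) + Q y * (-(2 * ⟪M y, M' y⟫))) := by
      intro y
      ring
    simp only [e]
    have i1 : IntervalIntegrable (fun y => lam y) volume 0 (9/2) := hlam.intervalIntegrable _ _
    have i2 : IntervalIntegrable (fun y => lam y * ‖M y‖ ^ 2 - om y * ‖M' y‖ ^ 2) volume 0 (9/2) := by
      apply Continuous.intervalIntegrable
      fun_prop
    rw [intervalIntegral.integral_add (i1.sub i2) (hcD.intervalIntegrable _ _), hint,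
      intervalIntegral.integral_sub i1 i2, add_zero]
  have hm := mpart hM hc
  rw [hsplit, intervalIntegral.integral_const_mul, integral_lam, integral_om] at hmono
  have htau : (0 : ℝ) < tau := by unfold tau; norm_num
  have hkey : (97 / 1000 : ℝ) ^ 2 ≤ tau * (5343004590441723/10240000000000000
      - 400 / 961 * (1038764466027/1024000000000)) := by
    unfold tau
    norm_num
  have h4 : 5343004590441723/10240000000000000 - 400 / 961 * (1038764466027/1024000000000)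
      ≤ (1 / tau) * ‖∫ y in (0 : ℝ)..(9/2), W y • M y‖ ^ 2 := by
    linarith [hmono, hm]
  have h5 : tau * (5343004590441723/10240000000000000 - 400 / 961 * (1038764466027/1024000000000))
      ≤ ‖∫ y in (0 : ℝ)..(9/2), W y • M y‖ ^ 2 := by
    have := mul_le_mul_of_nonneg_left h4 htau.le
    rw [← mul_assoc, mul_one_div_cancel htau.ne', one_mul] at this
    exact this
  exact le_of_sq_le_sq (le_trans hkey h5) (norm_nonneg _)

end SpecVar.D
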