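import Mathlib
import Pool.Agent.Lib.MP_29a676_an.Ineq

/-!
# The tail
-/

set_option autoImplicit false

namespace SpecVar.D

open Set MeasureTheory Filter Topology

/-- The bound for the tail. -/
private noncomputable def tlh (y : ℝ) : ℝ :=
  1 / y ^ 2 + Real.sin (2 * y) / y ^ 3 + 1 / y ^ 4 + 7 / 2 * (Real.cos (2 * y) / y ^ 4) -
    4 * (Real.sin (2 * y) / y ^ 5) + 1 / 2 / y ^ 5 + 9 / 2 / y ^ 6

/-- Its primitive. -/
private noncomputable def tlP (y : ℝ) : ℝ :=
  -(1 / y ^ 1) - 1 / 3 / y ^ 3 - 1 / 2 * (Real.cos (2 * y) / y ^ 3) + Real.sin (2 * y) / y ^ 4 -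
    1 / 8 / y ^ 4 - 9 / 10 / y ^ 5

private theorem hasDerivAt_tlP {y : ℝ} (hy : 0 < y) : HasDerivAt tlP (tlh y) y := by
  have h : ∀ (c : ℝ) (n : ℕ), HasDerivAt (fun y : ℝ => c / y ^ n) (-(c * n / y ^ (n + 1))) y := by
    intro c n
    have h1 := ((hasDerivAt_pow n y).inv (pow_ne_zero n hy.ne')).const_mul c
    have h2 : HasDerivAt (fun y : ℝ => c / y ^ n) (c * (-(n * y ^ (n - 1)) / (y ^ n) ^ 2)) y := h1
    refine h2.congr_deriv ?_
    rcases n with _ | n
    · simp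
    · simp only [Nat.add_sub_cancel]
      field_simp
      ring
  have h2y : HasDerivAt (fun y : ℝ => 2 * y) 2 y := by
    simpa using (hasDerivAt_id y).const_mul (2 : ℝ)
  have hs : HasDerivAt (fun y : ℝ => Real.sin (2 * y)) (Real.cos (2 * y) * 2) y := h2y.sin
  have hc : HasDerivAt (fun y : ℝ => Real.cos (2 * y)) (-Real.sin (2 * y) * 2) y := h2y.cos
  have hS := hs.mul (h 1 4)
  have hC := hc.mul (h 1 3)
  have hS' : HasDerivAt (fun y : ℝ => Real.sin (2 * y) / y ^ 4)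
      (2 * (Real.cos (2 * y) / y ^ 4) - 4 * (Real.sin (2 * y) / y ^ 5)) y := by
    have e : (fun y : ℝ => Real.sin (2 * y) / y ^ 4) =
        ((fun y : ℝ => Real.sin (2 * y)) * fun y : ℝ => 1 / y ^ 4) := by
      funext x
      simp only [Pi.mul_apply]
      ring
    rw [e]
    refine hS.congr_deriv ?_
    push_cast
    ring
  have hC' : HasDerivAt (fun y : ℝ => Real.cos (2 * y) / y ^ 3)
      (-2 * (Real.sin (2 * y) / y ^ 3) - 3 * (Real.cos (2 * y) / y ^ 4)) y := by
    have e : (fun y : ℝ => Real.cos (2 * y) / y ^ 3) =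
        ((fun y : ℝ => Real.cos (2 * y)) * fun y : ℝ => 1 / y ^ 3) := by
      funext x
      simp only [Pi.mul_apply]
      ring
    rw [e]
    refine hC.congr_deriv ?_
    push_cast
    ring
  have h1 := ((((((h 1 1).neg).sub (h (1 / 3) 3)).sub (hC'.const_mul (1 / 2 : ℝ))).add hS').sub
    (h (1 / 8) 4)).sub (h (9 / 10) 5)
  unfold tlP tlh
  refine h1.congr_deriv ?_
  push_cast
  norm_num
  ring

private theorem tl_pointwise {y a b : ℝ} (hy : 0 < y) (hab : a ^ 2 + b ^ 2 ≤ 1) :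
    -tlh y ≤ f y * a + g y * b := by
  have h1 : -(y ^ 2 * (f y ^ 2 + g y ^ 2) + (a ^ 2 + b ^ 2) / y ^ 2) ≤ 2 * (f y * a + g y * b) := by
    have h2 : 0 ≤ (y * f y + a / y) ^ 2 + (y * g y + b / y) ^ 2 := by positivity
    have h3 : (y * f y + a / y) ^ 2 + (y * g y + b / y) ^ 2 =
        (y ^ 2 * (f y ^ 2 + g y ^ 2) + (a ^ 2 + b ^ 2) / y ^ 2) + 2 * (f y * a + g y * b) := by
      field_simp
      ring
    linarith
  have h4 : (a ^ 2 + b ^ 2) / y ^ 2 ≤ 1 / y ^ 2 := by gcongr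
  have h5 : y ^ 2 * (f y ^ 2 + g y ^ 2) ≤ 2 * tlh y - 1 / y ^ 2 := by
    unfold tlh f g fn gn
    rw [Real.sin_two_mul, Real.cos_two_mul']
    have hsc := Real.sin_sq_add_cos_sq y
    set s := Real.sin y
    set c := Real.cos y
    have e1 : y ^ 2 * (((3 * s - 3 * y * c - y ^ 2 * s) / y ^ 4) ^ 2 + ((s - y * c) / y ^ 3) ^ 2) =
        (y ^ 4 + 4 * s * c * y ^ 3 + (9 * c ^ 2 - 5 * s ^ 2) * y ^ 2 - 18 * s * c * y + 9 * s ^ 2)
          / y ^ 6 := by
      have hc : c ^ 2 = 1 - s ^ 2 := by linarith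
      have h6 : y ^ 4 = y ^ 4 * (s ^ 2 + c ^ 2) := by rw [hsc, mul_one]
      rw [div_pow, div_pow, ← pow_mul, ← pow_mul]
      rw [show (y : ℝ) ^ 4 + 4 * s * c * y ^ 3 = y ^ 4 * (s ^ 2 + c ^ 2) + 4 * s * c * y ^ 3 by
        rw [hsc, mul_one]]
      field_simp
      ring
    rw [e1]
    have e2 : 2 * (1 / y ^ 2 + 2 * s * c / y ^ 3 + 1 / y ^ 4 + 7 / 2 * ((c ^ 2 - s ^ 2) / y ^ 4) -
          4 * (2 * s * c / y ^ 5) + 1 / 2 / y ^ 5 + 9 / 2 / y ^ 6) - 1 / y ^ 2 =
        (y ^ 4 + 4 * s * c * y ^ 3 + (2 + 7 * (c ^ 2 - s ^ 2)) * y ^ 2 + (1 - 16 * s * c) * y + 9)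
          / y ^ 6 := by
      field_simp
      ring
    rw [e2]
    gcongr ?_ / _
    have e3 : 2 + 7 * (c ^ 2 - s ^ 2) = 9 * c ^ 2 - 5 * s ^ 2 := by linear_combination (-2) * hsc
    rw [e3]
    have h7 : 0 ≤ (s + c) ^ 2 * y := by positivity
    have h8 : (s + c) ^ 2 = 1 + 2 * s * c := by linear_combination hsc
    rw [h8] at h7
    have h9 : 0 ≤ c ^ 2 := sq_nonneg c
    nlinarith
  linarith

private theorem tl_nonneg {y : ℝ} (hy : 0 < y) : 0 ≤ tlh y := by
  have h := tl_pointwise hy (a := 0) (b := 0) (by norm_num)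
  rw [mul_zero, mul_zero, add_zero] at h
  linarith

private theorem tl_bdd (b : ℝ → ℝ) (hb : ∀ y, |b y| ≤ 1) (n : ℕ) (hn : n ≠ 0) :
    Tendsto (fun y : ℝ => b y / y ^ n) atTop (𝓝 0) := by
  rw [tendsto_zero_iff_abs_tendsto_zero]
  refine squeeze_zero' (Eventually.of_forall fun _ => abs_nonneg _) ?_
    (tendsto_inv_pow_atTop 1 n hn)
  filter_upwards [eventually_gt_atTop 0] with y hy
  simp only [Function.comp]
  rw [abs_div, abs_of_pos (pow_pos hy n)]
  exact div_le_div_of_nonneg_right (hb y) (pow_pos hy n).le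

private theorem tendsto_tlP : Tendsto tlP atTop (𝓝 0) := by
  unfold tlP
  have hC := (tl_bdd (fun y => Real.cos (2 * y)) (fun y => Real.abs_cos_le_one _) 3
    (by norm_num)).const_mul (1 / 2 : ℝ)
  have hS := tl_bdd (fun y => Real.sin (2 * y)) (fun y => Real.abs_sin_le_one _) 4 (by norm_num)
  have h := (((((tendsto_inv_pow_atTop 1 1 (by norm_num)).neg.sub
    (tendsto_inv_pow_atTop (1 / 3) 3 (by norm_num))).sub hC).add hS).sub
    (tendsto_inv_pow_atTop (1 / 8) 4 (by norm_num))).sub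
    (tendsto_inv_pow_atTop (9 / 10) 5 (by norm_num))
  simpa using h

private theorem integrableOn_tlh : IntegrableOn tlh (Ioi (9 / 2)) := by
  refine integrableOn_Ioi_deriv_of_nonneg (g := tlP) (l := 0) ?_ ?_ ?_ tendsto_tlP
  · exact (hasDerivAt_tlP (by norm_num)).continuousAt.continuousWithinAt
  · intro y hy
    exact hasDerivAt_tlP (lt_trans (by norm_num) hy)
  · intro y hy
    exact tl_nonneg (lt_trans (by norm_num) hy)

private theorem tl_value : -(2209 / 10000) ≤ tlP (9 / 2) := by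
  have hp1 := Real.pi_gt_d4
  have hp2 := Real.pi_lt_d4
  set x : ℝ := 3 * Real.pi - 9 with hx
  have hx1 : 4245 / 10000 ≤ x := by rw [hx]; linarith
  have hx2 : x ≤ 4248 / 10000 := by rw [hx]; linarith
  have e9 : (9 : ℝ) = Real.pi - x + 2 * Real.pi := by rw [hx]; ring
  have hcos : Real.cos 9 = -Real.cos x := by
    rw [e9, Real.cos_add_two_pi, Real.cos_pi_sub]
  have hsin : Real.sin 9 = Real.sin x := by
    rw [e9, Real.sin_add_two_pi, Real.sin_pi_sub]
  have hc1 : 1 - x ^ 2 / 2 ≤ Real.cos x := Real.one_sub_sq_div_two_le_cos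
  have hs1 : x - x ^ 3 / 6 ≤ Real.sin x := sin_ge_S2 (by linarith)
  have hc2 : 909 / 1000 ≤ Real.cos x := by nlinarith
  have hs2 : 4 / 10 ≤ Real.sin x := by
    have h3 : x ^ 3 ≤ (4248 / 10000) ^ 3 := pow_le_pow_left₀ (by linarith) hx2 3
    linarith
  unfold tlP
  rw [show (2 : ℝ) * (9 / 2) = 9 by norm_num, hcos, hsin]
  norm_num
  linarith

theorem tail {a a' : ℝ → ℝ} (ha : ∀ y, HasDerivAt a (a' y) y) (hc : Continuous a')
    (hb : ∀ y, a y ^ 2 + 961 / 400 * a' y ^ 2 ≤ 1) :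
    -(87 / 1000) ≤ ∫ y in Ioi (9 / 2 : ℝ), f y * a y := by
  have huc : Continuous a := continuous_iff_continuousAt.2 fun y => (ha y).continuousAt
  have hu1 : ∀ y, |a y| ≤ 1 := by
    intro y
    rw [← sq_le_one_iff_abs_le_one]
    nlinarith [hb y, sq_nonneg (a' y)]
  have hu2 : ∀ y, |a' y| ≤ 1 := by
    intro y
    rw [← sq_le_one_iff_abs_le_one]
    nlinarith [hb y, sq_nonneg (a y), sq_nonneg (a' y)]
  have hfi : IntegrableOn f (Ioi (9 / 2)) := integrableOn_f.mono_set (Ioi_subset_Ioi (by norm_num))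
  have hfu : IntegrableOn (fun y => f y * a y) (Ioi (9 / 2)) := by
    refine Integrable.mono' hfi.norm (measurable_f.aestronglyMeasurable.mul
      huc.aestronglyMeasurable) ?_
    filter_upwards with y
    rw [norm_mul, Real.norm_eq_abs (a y)]
    exact mul_le_of_le_one_right (norm_nonneg _) (hu1 y)
  have hgm : Measurable g := by
    unfold g gn
    fun_prop
  have hgi : IntegrableOn g (Ioi (9 / 2)) := by
    have h3 : IntegrableOn (fun y : ℝ => 2 * y ^ (-2 : ℝ)) (Ioi (9 / 2)) :=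
      (integrableOn_Ioi_rpow_of_lt (by norm_num) (by norm_num)).const_mul 2
    refine Integrable.mono' h3 hgm.aestronglyMeasurable ?_
    rw [ae_restrict_iff' measurableSet_Ioi]
    filter_upwards with y hy
    have hy1 : (9 / 2 : ℝ) < y := hy
    rw [Real.norm_eq_abs]
    refine (abs_g_le_inv (by linarith)).trans (le_of_eq ?_)
    rw [Real.rpow_neg (by linarith), div_eq_mul_inv]
    norm_num
  have hgu : IntegrableOn (fun y => g y * a' y) (Ioi (9 / 2)) := by
    refine Integrable.mono' hgi.norm (hgm.aestronglyMeasurable.mul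
      hc.aestronglyMeasurable) ?_
    filter_upwards with y
    rw [norm_mul, Real.norm_eq_abs (a' y)]
    exact mul_le_of_le_one_right (norm_nonneg _) (hu2 y)
  -- the comparison function is a derivative
  have hφi : IntegrableOn (fun y => -(31 / 51) * (-(f y * a y) + g y * a' y) - 20 / 51 * tlh y)
      (Ioi (9 / 2)) :=
    ((hfu.neg.add hgu).const_mul _).sub (integrableOn_tlh.const_mul _)
  have hint : ∫ y in Ioi (9 / 2 : ℝ), (-(31 / 51) * (-(f y * a y) + g y * a' y) - 20 / 51 * tlh y) =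
      0 - (-(31 / 51) * (g (9 / 2) * a (9 / 2)) - 20 / 51 * tlP (9 / 2)) := by
    have hd : ∀ y ∈ Ici (9 / 2 : ℝ), HasDerivAt (fun y => -(31 / 51) * (g y * a y) - 20 / 51 * tlP y)
        (-(31 / 51) * (-(f y * a y) + g y * a' y) - 20 / 51 * tlh y) y := by
      intro y hy
      have hy0 : (0 : ℝ) < y := lt_of_lt_of_le (by norm_num) hy
      have h1 := ((hasDerivAt_g hy0.ne').mul (ha y)).const_mul (-(31 / 51) : ℝ)
      have h2 := (hasDerivAt_tlP hy0).const_mul (20 / 51 : ℝ)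
      refine (h1.sub h2).congr_deriv ?_
      ring
    refine integral_Ioi_of_hasDerivAt_of_tendsto' hd hφi ?_
    have h1 : Tendsto (fun y => g y * a y) atTop (𝓝 0) := by
      rw [tendsto_zero_iff_abs_tendsto_zero]
      refine squeeze_zero' (Eventually.of_forall fun _ => abs_nonneg _) ?_
        (tendsto_zero_iff_abs_tendsto_zero _ |>.1 tendsto_g_atTop)
      filter_upwards with y
      simp only [Function.comp]
      rw [abs_mul]
      exact mul_le_of_le_one_right (abs_nonneg _) (hu1 y)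
    have h2 := (h1.const_mul (-(31 / 51) : ℝ)).sub (tendsto_tlP.const_mul (20 / 51 : ℝ))
    simpa using h2
  have hmono : ∫ y in Ioi (9 / 2 : ℝ), (-(31 / 51) * (-(f y * a y) + g y * a' y) - 20 / 51 * tlh y) ≤
      ∫ y in Ioi (9 / 2 : ℝ), f y * a y := by
    refine setIntegral_mono_on hφi hfu measurableSet_Ioi ?_
    intro y hy
    have hy0 : (0 : ℝ) < y := lt_trans (by norm_num) hy
    have h1 := tl_pointwise hy0 (a := a y) (b := 31 / 20 * a' y) (by nlinarith [hb y])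
    nlinarith
  rw [hint] at hmono
  have h4 : -|g (9 / 2)| ≤ g (9 / 2) * a (9 / 2) := by
    have : |g (9 / 2) * a (9 / 2)| ≤ |g (9 / 2)| := by
      rw [abs_mul]
      exact mul_le_of_le_one_right (abs_nonneg _) (hu1 _)
    exact neg_le_of_abs_le this
  have h5 := abs_g_le
  have h6 := tl_value
  linarith

end SpecVar.D
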