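import Mathlib
import Pool.Agent.Lib.MP_29a676_an.D.Front
import Pool.Agent.Lib.MP_29a676_an.D.Close
import Pool.Agent.Lib.MP_29a676_an.D.Tail

/-!
# The analytic core (proof)
-/

set_option autoImplicit false

namespace SpecVar.D

open Set MeasureTheory intervalIntegral
open scoped RealInnerProductSpace

variable {E : Type*} [NormedAddCommGroup E] [InnerProductSpace ℝ E]

theorem core [CompleteSpace E] {M M' : ℝ → E} (hM : ∀ y, HasDerivAt M (M' y) y)
    (hc : Continuous M') (h0 : ‖M 0‖ = 1)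
    (hs : ∀ y κ : ℝ, 0 < y → ‖M' y‖ ^ 2 - 2 * κ * ⟪M y, M' y⟫ +
      (1 / y ^ 2 - κ ^ 2) * (1 - ‖M y‖ ^ 2) ≤ 400 / 961)
    (hT : ∀ n : E, ‖n‖ = 1 → ∀ y, ⟪n, M y⟫ ^ 2 + 961 / 400 * ⟪n, M' y⟫ ^ 2 ≤ 1)
    (hz : ∫ y in Ioi (0 : ℝ), f y • M y = 0) : False := by
  have hMc : Continuous M := continuous_iff_continuousAt.2 fun y => (hM y).continuousAt
  have hfront := front hM hc h0 hs
  set v : E := ∫ y in (0 : ℝ)..(9/2), W y • M y with hv
  have hv0 : 0 < ‖v‖ := by linarith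
  set n : E := ‖v‖⁻¹ • v with hn
  have hn1 : ‖n‖ = 1 := by
    rw [hn, norm_smul, norm_inv, norm_norm, inv_mul_cancel₀ hv0.ne']
  have hnv : ⟪n, v⟫ = ‖v‖ := by
    rw [hn, real_inner_smul_left, real_inner_self_eq_norm_sq]
    field_simp
  -- the norm of M
  have hM1 : ∀ y, ‖M y‖ ≤ 1 := by
    intro y
    by_cases h : M y = 0
    · rw [h, norm_zero]
      exact zero_le_one
    · have h1 : 0 < ‖M y‖ := norm_pos_iff.2 h
      have h2 : ‖‖M y‖⁻¹ • M y‖ = 1 := by
        rw [norm_smul, norm_inv, norm_norm, inv_mul_cancel₀ h1.ne']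
      have h3 := hT _ h2 y
      have h4 : ⟪‖M y‖⁻¹ • M y, M y⟫ = ‖M y‖ := by
        rw [real_inner_smul_left, real_inner_self_eq_norm_sq]
        field_simp
      rw [h4] at h3
      have h5 : 0 ≤ 961 / 400 * ⟪‖M y‖⁻¹ • M y, M' y⟫ ^ 2 := by positivity
      nlinarith
  -- a = inner n M
  have ha : ∀ y, HasDerivAt (fun y => ⟪n, M y⟫) (⟪n, M' y⟫) y := by
    intro y
    have h := (hasDerivAt_const y n).inner ℝ (hM y)
    simpa using h
  have hac : Continuous fun y => ⟪n, M y⟫ := continuous_const.inner hMc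
  have hac' : Continuous fun y => ⟪n, M' y⟫ := continuous_const.inner hc
  have ha1 : ∀ y, |⟪n, M y⟫| ≤ 1 := by
    intro y
    calc |⟪n, M y⟫| ≤ ‖n‖ * ‖M y‖ := abs_real_inner_le_norm _ _
      _ ≤ 1 * 1 := by
        rw [hn1]
        exact mul_le_mul_of_nonneg_left (hM1 y) zero_le_one
      _ = 1 := one_mul 1
  have htail := tail ha hac' (hT n hn1)
  -- integrability
  have hfi : IntegrableOn f (Ioi 0) := integrableOn_f
  have hfM : IntegrableOn (fun y => f y • M y) (Ioi 0) := by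
    refine Integrable.mono' hfi.norm
      (hfi.aestronglyMeasurable.smul hMc.aestronglyMeasurable) (Filter.Eventually.of_forall fun y => ?_)
    rw [norm_smul]
    exact mul_le_of_le_one_right (norm_nonneg _) (hM1 y)
  have hfa : IntegrableOn (fun y => f y * ⟪n, M y⟫) (Ioi 0) := by
    refine Integrable.mono' hfi.norm
      (hfi.aestronglyMeasurable.mul hac.aestronglyMeasurable) (Filter.Eventually.of_forall fun y => ?_)
    rw [norm_mul]
    exact mul_le_of_le_one_right (norm_nonneg _) (by rw [Real.norm_eq_abs]; exact ha1 y)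
  -- the total integral
  have htot : ∫ y in Ioi (0 : ℝ), f y * ⟪n, M y⟫ = 0 := by
    have h1 : ∫ y in Ioi (0 : ℝ), ⟪n, f y • M y⟫ = ⟪n, ∫ y in Ioi (0 : ℝ), f y • M y⟫ :=
      integral_inner hfM n
    rw [hz, inner_zero_right] at h1
    refine Eq.trans ?_ h1
    refine integral_congr_ae (Filter.Eventually.of_forall fun y => ?_)
    show f y * ⟪n, M y⟫ = ⟪n, f y • M y⟫
    rw [real_inner_smul_right]
  have hsplit : ∫ y in Ioi (0 : ℝ), f y * ⟪n, M y⟫ =
      (∫ y in (0 : ℝ)..(9/2), f y * ⟪n, M y⟫) + ∫ y in Ioi (9 / 2 : ℝ), f y * ⟪n, M y⟫ := by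
    rw [intervalIntegral.integral_of_le (by norm_num : (0 : ℝ) ≤ 9 / 2),
      ← Ioc_union_Ioi_eq_Ioi (by norm_num : (0 : ℝ) ≤ 9 / 2)]
    refine setIntegral_union ?_ measurableSet_Ioi ?_ ?_
    · exact Set.disjoint_left.2 fun x hx hx' => absurd hx.2 (not_le.2 hx')
    · exact hfa.mono_set Ioc_subset_Ioi_self
    · exact hfa.mono_set (Ioi_subset_Ioi (by norm_num))
  -- the front
  have hfi0 : IntervalIntegrable f volume 0 (9/2) := by
    rw [intervalIntegrable_iff_integrableOn_Ioc_of_le (by norm_num)]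
    exact hfi.mono_set Ioc_subset_Ioi_self
  have hWc := continuous_W
  have hWi : IntervalIntegrable (fun y => W y * ⟪n, M y⟫) volume 0 (9/2) :=
    (hWc.mul hac).intervalIntegrable _ _
  have hfai : IntervalIntegrable (fun y => f y * ⟪n, M y⟫) volume 0 (9/2) := by
    rw [intervalIntegrable_iff_integrableOn_Ioc_of_le (by norm_num)]
    exact hfa.mono_set Ioc_subset_Ioi_self
  have hW : ∫ y in (0 : ℝ)..(9/2), W y * ⟪n, M y⟫ = ‖v‖ := by
    rw [← hnv, hv]
    have h1 := (innerSL ℝ n).intervalIntegral_comp_comm (μ := volume) (a := 0) (b := 9/2)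
      (f := fun y => W y • M y) ((hWc.smul hMc).intervalIntegrable _ _)
    have h2 : (innerSL ℝ n) (∫ y in (0 : ℝ)..(9/2), W y • M y) = ⟪n, ∫ y in (0 : ℝ)..(9/2), W y • M y⟫ := rfl
    rw [← h2, ← h1]
    refine intervalIntegral.integral_congr fun y _ => ?_
    show W y * ⟪n, M y⟫ = ⟪n, W y • M y⟫
    rw [real_inner_smul_right]
  have hdiff : (∫ y in (0 : ℝ)..(9/2), W y * ⟪n, M y⟫) - (∫ y in (0 : ℝ)..(9/2), |f y - W y|) ≤
      ∫ y in (0 : ℝ)..(9/2), f y * ⟪n, M y⟫ := by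
    have hi : IntervalIntegrable (fun y => |f y - W y|) volume 0 (9/2) :=
      (hfi0.sub (hWc.intervalIntegrable _ _)).abs
    rw [← intervalIntegral.integral_sub hWi hi]
    refine intervalIntegral.integral_mono_on (by norm_num) (hWi.sub hi) hfai fun y _ => ?_
    have h1 : |(f y - W y) * ⟪n, M y⟫| ≤ |f y - W y| := by
      rw [abs_mul]
      exact mul_le_of_le_one_right (abs_nonneg _) (ha1 y)
    have h2 := neg_abs_le ((f y - W y) * ⟪n, M y⟫)
    have h3 : (f y - W y) * ⟪n, M y⟫ = f y * ⟪n, M y⟫ - W y * ⟪n, M y⟫ := by ring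
    linarith
  have hcl := close
  rw [hW] at hdiff
  linarith

end SpecVar.D
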