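import Mathlib
import Pool.Agent.Lib.MP_29a676_an.D.ParamDef

/-!
# Circle means of exponential sums: continuity and derivatives
-/

set_option autoImplicit false

namespace SpecVar.D

open Set MeasureTheory intervalIntegral Complex
open scoped Real

variable {E : Type*} [NormedAddCommGroup E] [InnerProductSpace ℂ E] [FiniteDimensional ℂ E]
variable {ι : Type*} [Fintype ι]

omit [FiniteDimensional ℂ E] in
theorem continuous_U (s : ι → ℂ) (c : ι → E) : Continuous (Function.uncurry (U s c)) := by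
  unfold U Function.uncurry
  fun_prop

omit [FiniteDimensional ℂ E] in
theorem continuous_Ur (s : ι → ℂ) (c : ι → E) : Continuous (Function.uncurry (Ur s c)) := by
  unfold Ur Ud Function.uncurry
  fun_prop

omit [FiniteDimensional ℂ E] in
theorem continuous_Ut (s : ι → ℂ) (c : ι → E) : Continuous (Function.uncurry (Ut s c)) := by
  unfold Ut Ud Function.uncurry
  fun_prop

omit [FiniteDimensional ℂ E] in
theorem hasDerivAt_U (s : ι → ℂ) (c : ι → E) (y θ : ℝ) :
    HasDerivAt (fun θ => U s c y θ) (y • Ut s c y θ) θ := by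
  have hexp : HasDerivAt (fun θ : ℝ => cexp ((θ : ℂ) * I)) (I * cexp ((θ : ℂ) * I)) θ := by
    have h1 : HasDerivAt (fun θ : ℝ => (θ : ℂ) * I) I θ := by
      have := (Complex.ofRealCLM.hasDerivAt (x := θ)).mul_const I
      simpa using this
    have := h1.cexp
    rw [mul_comm] at this
    exact this
  have hin : ∀ p, HasDerivAt (fun θ : ℝ => (inner ℝ (cexp ((θ : ℂ) * I)) (s p) : ℝ))
      (inner ℝ (I * cexp ((θ : ℂ) * I)) (s p) : ℝ) θ := by
    intro p
    have := hexp.inner ℝ (hasDerivAt_const θ (s p))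
    simpa using this
  have hterm : ∀ p, HasDerivAt (fun θ : ℝ => cexp ((y * inner ℝ (cexp (θ * I)) (s p) : ℝ) * I) • c p)
      ((((y * (inner ℝ (I * cexp ((θ : ℂ) * I)) (s p) : ℝ) : ℝ) : ℂ) * I *
        cexp ((y * inner ℝ (cexp (θ * I)) (s p) : ℝ) * I)) • c p) θ := by
    intro p
    have h1 : HasDerivAt (fun θ : ℝ => y * (inner ℝ (cexp ((θ : ℂ) * I)) (s p) : ℝ))
        (y * (inner ℝ (I * cexp ((θ : ℂ) * I)) (s p) : ℝ)) θ := (hin p).const_mul y
    have h2 := (h1.ofReal_comp.mul_const I).cexp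
    rw [mul_comm] at h2
    exact h2.smul_const (c p)
  unfold U Ut Ud
  have hs := HasDerivAt.fun_sum (u := Finset.univ) fun p _ => hterm p
  refine hs.congr_deriv ?_
  rw [Finset.smul_sum]
  refine Finset.sum_congr rfl fun p _ => ?_
  rw [← Complex.coe_smul y, smul_smul]
  congr 1
  push_cast
  ring

omit [FiniteDimensional ℂ E] in
theorem U_periodic (s : ι → ℂ) (c : ι → E) (y : ℝ) : U s c y (-π) = U s c y π := by
  unfold U
  refine Finset.sum_congr rfl fun p _ => ?_
  have h : cexp (((-π : ℝ) : ℂ) * I) = cexp ((π : ℂ) * I) := by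
    rw [Complex.exp_pi_mul_I]
    push_cast
    rw [neg_mul, Complex.exp_neg, Complex.exp_pi_mul_I]
    norm_num
  rw [h]

end SpecVar.D
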