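import Mathlib
import Pool.Agent.Lib.MP_29a676_an.D.Par1

/-!
# Circle means of exponential sums: differentiation under the integral
-/

set_option autoImplicit false

namespace SpecVar.D

open Set MeasureTheory intervalIntegral Complex Filter
open scoped Real Topology Interval

variable {E : Type*} [NormedAddCommGroup E] [InnerProductSpace ℂ E] [FiniteDimensional ℂ E]
variable {ι : Type*} [Fintype ι]

omit [FiniteDimensional ℂ E] in
theorem par2_deriv (s : ι → ℂ) (c : ι → E) (y θ : ℝ) :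
    HasDerivAt (fun y => U s c y θ) (Ur s c y θ) y := by
  unfold U Ur Ud
  apply HasDerivAt.fun_sum
  intro p _
  apply HasDerivAt.smul_const
  have h1 : HasDerivAt (fun y : ℝ => y * inner ℝ (cexp (θ * I)) (s p))
      (inner ℝ (cexp (θ * I)) (s p)) y := by
    simpa using (hasDerivAt_id y).mul_const (inner ℝ (cexp (θ * I)) (s p))
  have h2 : HasDerivAt (fun y : ℝ => ((y * inner ℝ (cexp (θ * I)) (s p) : ℝ) : ℂ) * I)
      (((inner ℝ (cexp (θ * I)) (s p) : ℝ) : ℂ) * I) y := by
    exact (h1.ofReal_comp).mul_const I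
  have h3 := h2.cexp
  have h4 : cexp (((y * inner ℝ (cexp (θ * I)) (s p) : ℝ) : ℂ) * I) *
      (((inner ℝ (cexp (θ * I)) (s p) : ℝ) : ℂ) * I) =
      ((inner ℝ (cexp (θ * I)) (s p) : ℝ) : ℂ) * I *
        cexp (((y * inner ℝ (cexp (θ * I)) (s p) : ℝ) : ℂ) * I) := by
    ring
  rw [← h4]
  exact h3

omit [FiniteDimensional ℂ E] in
theorem par2_bound (s : ι → ℂ) (c : ι → E) (y θ : ℝ) :
    ‖Ur s c y θ‖ ≤ ∑ p, ‖s p‖ * ‖c p‖ := by
  unfold Ur Ud
  refine (norm_sum_le _ _).trans (Finset.sum_le_sum fun p _ => ?_)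
  rw [norm_smul, norm_mul, norm_mul, Complex.norm_exp_ofReal_mul_I, Complex.norm_I,
    Complex.norm_real, mul_one, mul_one]
  apply mul_le_mul_of_nonneg_right _ (norm_nonneg _)
  refine (norm_inner_le_norm _ _).trans ?_
  rw [Complex.norm_exp_ofReal_mul_I, one_mul]

theorem hasDerivAt_MM (s : ι → ℂ) (c : ι → E) (y : ℝ) :
    HasDerivAt (MM s c) (MM' s c y) y := by
  have hcU := continuous_U s c
  have hcUr := continuous_Ur s c
  have hU : ∀ y : ℝ, Continuous (U s c y) := fun y => hcU.uncurry_left y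
  have hUr : ∀ y : ℝ, Continuous (Ur s c y) := fun y => hcUr.uncurry_left y
  have a1 : ∀ᶠ x in 𝓝 y, AEStronglyMeasurable (U s c x) (volume.restrict (Ι (-π) π)) :=
    Filter.Eventually.of_forall fun x => (hU x).aestronglyMeasurable
  have a2 : IntervalIntegrable (U s c y) volume (-π) π := (hU y).intervalIntegrable _ _
  have a3 : AEStronglyMeasurable (Ur s c y) (volume.restrict (Ι (-π) π)) :=
    (hUr y).aestronglyMeasurable
  have a4 : ∀ᵐ t ∂volume, t ∈ Ι (-π) π → ∀ x ∈ (Set.univ : Set ℝ),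
      ‖Ur s c x t‖ ≤ (fun _ : ℝ => ∑ p, ‖s p‖ * ‖c p‖) t :=
    Filter.Eventually.of_forall fun t _ x _ => par2_bound s c x t
  have a5 : IntervalIntegrable (fun _ : ℝ => ∑ p, ‖s p‖ * ‖c p‖) volume (-π) π :=
    continuous_const.intervalIntegrable _ _
  have a6 : ∀ᵐ t ∂volume, t ∈ Ι (-π) π → ∀ x ∈ (Set.univ : Set ℝ),
      HasDerivAt (fun x => U s c x t) (Ur s c x t) x :=
    Filter.Eventually.of_forall fun t _ x _ => par2_deriv s c x t
  have h := intervalIntegral.hasDerivAt_integral_of_dominated_loc_of_deriv_le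
    (Filter.univ_mem : (Set.univ : Set ℝ) ∈ 𝓝 y) a1 a2 a3 a4 a5 a6
  exact h.2.const_smul ((2 * π)⁻¹ : ℝ)

omit [FiniteDimensional ℂ E] in
theorem continuous_MM' (s : ι → ℂ) (c : ι → E) : Continuous (MM' s c) := by
  unfold MM'
  apply (intervalIntegral.continuous_parametric_intervalIntegral_of_continuous'
    (continuous_Ur s c) _ _).const_smul

end SpecVar.D
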