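import Mathlib
import Pool.Agent.Lib.MP_29a676_an.D.Par2

/-!
# Circle means of exponential sums: the kernel integral
-/

set_option autoImplicit false

namespace SpecVar.D

open Set MeasureTheory intervalIntegral Complex
open scoped Real

variable {E : Type*} [NormedAddCommGroup E] [InnerProductSpace ℂ E] [FiniteDimensional ℂ E]
variable {ι : Type*} [Fintype ι]

omit [FiniteDimensional ℂ E] in
theorem par3_smul (s : ι → ℂ) (c : ι → E) (y θ : ℝ) :
    f y • U s c y θ = ∑ p, Phi (s p) θ y • c p := by
  unfold U Phi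
  rw [Finset.smul_sum]
  refine Finset.sum_congr rfl fun p _ => ?_
  rw [← Complex.coe_smul (f y), smul_smul]

theorem par3_integrable (s : ℂ) (y : ℝ) :
    Integrable (fun θ : ℝ => Phi s θ y) (volume.restrict (Ioo (-π) π)) := by
  have hc : Continuous (fun θ : ℝ => Phi s θ y) := by
    unfold Phi
    fun_prop
  exact (hc.integrableOn_Icc (a := -π) (b := π)).mono_set Ioo_subset_Icc_self

theorem integral_f_MM (s : ι → ℂ) (c : ι → E) :
    ∫ y in Ioi (0 : ℝ), f y • MM s c y =
      (2 * π)⁻¹ • ∑ p, (∫ φ in Ioo (-π) π, ∫ y in Ioi (0 : ℝ), Phi (s p) φ y) • c p := by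
  have hpi : -π ≤ π := by linarith [Real.pi_pos]
  have h1 : ∀ y : ℝ, f y • MM s c y =
      (2 * π)⁻¹ • ∑ p, (∫ θ in Ioo (-π) π, Phi (s p) θ y) • c p := by
    intro y
    unfold MM
    rw [smul_comm, ← intervalIntegral.integral_smul]
    congr 1
    rw [intervalIntegral.integral_of_le hpi, integral_Ioc_eq_integral_Ioo]
    simp_rw [par3_smul]
    rw [integral_finsetSum _ fun p _ => (par3_integrable (s p) y).smul_const (c p)]
    refine Finset.sum_congr rfl fun p _ => ?_
    rw [_root_.integral_smul_const]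
  simp_rw [h1]
  rw [MeasureTheory.integral_smul]
  congr 1
  have h2 : ∀ p, Integrable (fun y : ℝ => (∫ θ in Ioo (-π) π, Phi (s p) θ y) • c p)
      (volume.restrict (Ioi (0 : ℝ))) := fun p =>
    (integrable_Phi (s p)).integral_prod_right.smul_const (c p)
  rw [integral_finsetSum _ fun p _ => h2 p]
  refine Finset.sum_congr rfl fun p _ => ?_
  rw [_root_.integral_smul_const]
  congr 1
  exact (integral_integral_swap (integrable_Phi (s p))).symm

end SpecVar.D
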