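import Mathlib
import Pool.Agent.Lib.MP_29a676_an.D.Core
import Pool.Agent.Lib.MP_29a676_an.D.Circle
import Pool.Agent.Lib.MP_29a676_an.D.Par3
import Pool.Agent.Lib.MP_29a676_an.D.Alg

/-!
# Spectral variation with constant `31 / 20`
-/

set_option autoImplicit false

namespace SpecVar.D

open ContinuousLinearMap Complex MeasureTheory Set
open scoped Real

variable {E : Type*} [NormedAddCommGroup E] [InnerProductSpace ℂ E] [FiniteDimensional ℂ E]
variable {ι : Type*} [Fintype ι]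

theorem no_sep_core (s : ι → ℂ) (c : ι → E) (hn : ∀ y θ, ‖U s c y θ‖ = 1)
    (ho : ∀ y θ, (inner ℂ (U s c y θ) (Ur s c y θ)).re = 0)
    (he : ∀ y θ, ‖Ur s c y θ‖ ^ 2 + ‖Ut s c y θ‖ ^ 2 ≤ 400 / 961)
    (hz : ∑ p, (∫ φ in Ioo (-π) π, ∫ y in Ioi (0 : ℝ), Phi (s p) φ y) • c p = 0) : False := by
  have hUc : ∀ y, Continuous (U s c y) := fun y =>
    Continuous.uncurry_left y (continuous_U s c)
  have hUrc : ∀ y, Continuous (Ur s c y) := fun y =>
    Continuous.uncurry_left y (continuous_Ur s c)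
  have hUtc : ∀ y, Continuous (Ut s c y) := fun y =>
    Continuous.uncurry_left y (continuous_Ut s c)
  have h0 : ‖MM s c 0‖ = 1 := by
    have h1 : ∀ θ : ℝ, U s c 0 θ = ∑ p, c p := by
      intro θ
      simp [U]
    have h2 : ‖∑ p, c p‖ = 1 := by rw [← h1 0]; exact hn 0 0
    unfold MM
    simp only [h1]
    rw [intervalIntegral.integral_const, smul_smul]
    have : (2 * π)⁻¹ * (π - -π) = 1 := by
      have := Real.pi_pos
      field_simp
      ring
    rw [this, one_smul, h2]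
  have hs : ∀ y κ : ℝ, 0 < y → ‖MM' s c y‖ ^ 2 - 2 * κ * (inner ℂ (MM s c y) (MM' s c y)).re +
      (1 / y ^ 2 - κ ^ 2) * (1 - ‖MM s c y‖ ^ 2) ≤ 400 / 961 := by
    intro y κ hy
    exact circle_star hy (hasDerivAt_U s c y) (hUtc y) (hUrc y) (U_periodic s c y) (hn y) (ho y)
      (he y) κ
  have hT : ∀ n : E, ‖n‖ = 1 → ∀ y, (inner ℂ n (MM s c y)).re ^ 2 +
      961 / 400 * (inner ℂ n (MM' s c y)).re ^ 2 ≤ 1 := by
    intro n hn1 y
    exact circle_tail (hUc y) (hUrc y) (hn y) (ho y)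
      (fun t => (le_add_of_nonneg_right (sq_nonneg _)).trans (he y t)) hn1
  have hI : ∫ y in Ioi (0 : ℝ), f y • MM s c y = 0 := by
    rw [integral_f_MM, hz, smul_zero]
  letI : InnerProductSpace ℝ E := InnerProductSpace.complexToReal
  exact core (M := MM s c) (M' := MM' s c) (hasDerivAt_MM s c) (continuous_MM' s c) h0 hs hT hI

theorem no_sep {n : ℕ} (a b : OrthonormalBasis (Fin n) ℂ E) (A B : E →L[ℂ] E)
    (α β : Fin n → ℂ)
    (hA : ∀ i, A (a i) = α i • a i) (hB : ∀ k, B (b k) = β k • b k)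
    (hA' : ∀ i, adjoint A (a i) = (starRingEnd ℂ (α i)) • a i)
    (hB' : ∀ k, adjoint B (b k) = (starRingEnd ℂ (β k)) • b k)
    {δ : ℝ} (hδ : 0 < δ) (hAB : 31 / 20 * ‖A - B‖ ≤ δ) (S T : Finset (Fin n))
    (h : n < S.card + T.card) (hsep : ∀ i ∈ S, ∀ k ∈ T, δ ≤ ‖α i - β k‖) : False := by
  obtain ⟨x, hx, hk⟩ := exists_ker a b S T h
    (fun i k => ∫ φ in Ioo (-π) π, ∫ y in Ioi (0 : ℝ), Phi (ss α β δ (i, k)) φ y) (by
      intro i hi k hk
      apply Phi_zero
      unfold ss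
      rw [norm_div, Complex.norm_real, Real.norm_eq_abs, abs_of_pos hδ, le_div_iff₀ hδ, one_mul,
        norm_sub_rev]
      exact hsep i hi k hk)
  refine no_sep_core (ss α β δ) (cc a b x) (fun y θ => norm_U a b α β δ hx y θ)
    (fun y θ => orth_U a b A B α β hA hB hA' hB' δ x y θ)
    (fun y θ => energy_U a b A B α β hA hB hA' hB' hδ hAB hx y θ) ?_
  rw [Fintype.sum_prod_type]
  refine Finset.sum_eq_zero fun i _ => ?_
  have h2 := hk i
  have h3 : ∑ k, (∫ φ in Ioo (-π) π, ∫ y in Ioi (0 : ℝ), Phi (ss α β δ (i, k)) φ y) •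
      cc a b x (i, k) =
      (∑ k, inner ℂ (a i) (b k) * inner ℂ (b k) x *
        ∫ φ in Ioo (-π) π, ∫ y in Ioi (0 : ℝ), Phi (ss α β δ (i, k)) φ y) • a i := by
    rw [Finset.sum_smul]
    refine Finset.sum_congr rfl fun k _ => ?_
    unfold cc
    rw [smul_smul]
    congr 1
    ring
  rw [h3, h2, zero_smul]

theorem exists_perm_of_bases {n : ℕ} (a b : OrthonormalBasis (Fin n) ℂ E)
    (A B : E →L[ℂ] E) (α β : Fin n → ℂ)
    (hA : ∀ i, A (a i) = α i • a i) (hB : ∀ k, B (b k) = β k • b k)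
    (hA' : ∀ i, ContinuousLinearMap.adjoint A (a i) = (starRingEnd ℂ (α i)) • a i)
    (hB' : ∀ k, ContinuousLinearMap.adjoint B (b k) = (starRingEnd ℂ (β k)) • b k) :
    ∃ σ : Equiv.Perm (Fin n), ∀ k, ‖α k - β (σ k)‖ ≤ 31 / 20 * ‖A - B‖ := by
  classical
  by_contra hcon
  have hall := (Fintype.all_card_le_filter_rel_iff_exists_injective
    (fun i k : Fin n => ‖α i - β k‖ ≤ 31 / 20 * ‖A - B‖)).not
  have h1 : ¬ ∃ g : Fin n → Fin n, Function.Injective g ∧
      ∀ i, ‖α i - β (g i)‖ ≤ 31 / 20 * ‖A - B‖ := by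
    rintro ⟨g, hg, hg2⟩
    exact hcon ⟨Equiv.ofBijective g (Finite.injective_iff_bijective.mp hg), hg2⟩
  have h2 := hall.mpr h1
  push Not at h2
  obtain ⟨S, hS⟩ := h2
  set R : Finset (Fin n) := Finset.filter (fun k => ∃ i ∈ S, ‖α i - β k‖ ≤ 31 / 20 * ‖A - B‖)
    Finset.univ with hR
  have hS' : R.card < S.card := by
    convert! hS
  have hcard : n < S.card + Rᶜ.card := by
    have h3 : R.card + Rᶜ.card = n := by
      rw [Finset.card_add_card_compl, Fintype.card_fin]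
    omega
  have hSne : S.Nonempty := by
    rw [← Finset.card_pos]
    have : Rᶜ.card ≤ n := by simpa using Finset.card_le_univ Rᶜ
    omega
  have hTne : Rᶜ.Nonempty := by
    rw [← Finset.card_pos]
    have : S.card ≤ n := by simpa using Finset.card_le_univ S
    omega
  obtain ⟨p, hp, hmin⟩ := Finset.exists_min_image (S ×ˢ Rᶜ) (fun p => ‖α p.1 - β p.2‖)
    (hSne.product hTne)
  rw [Finset.mem_product] at hp
  have hpos : 31 / 20 * ‖A - B‖ < ‖α p.1 - β p.2‖ := by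
    by_contra h
    push Not at h
    have := hp.2
    rw [Finset.mem_compl, hR, Finset.mem_filter] at this
    exact this ⟨Finset.mem_univ _, p.1, hp.1, h⟩
  exact no_sep a b A B α β hA hB hA' hB' (lt_of_le_of_lt (by positivity) hpos) hpos.le S Rᶜ hcard
    (fun i hi k hk => hmin (i, k) (Finset.mem_product.mpr ⟨hi, hk⟩))

end SpecVar.D
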